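import Pool.Agent.Helper39.Dim.Bloch
set_option autoImplicit false
open Complex MeasureTheory Metric Set Filter Topology
open scoped Real ENNReal ComplexConjugate NNReal

/-! Bound for the pre-Schwarzian derivative in class `Σ` (with a non-sharp constant). -/

namespace Pool.Agent.Helper39.Dim

open Pool.Agent.Helper39.Area

theorem preSchwarzian {ψ h : ℂ → ℂ}
    (hψ : DifferentiableOn ℂ ψ {z : ℂ | 1 < ‖z‖})
    (hinj : InjOn ψ {z : ℂ | 1 < ‖z‖})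
    (hh : DifferentiableOn ℂ h {z : ℂ | 1 < ‖z‖})
    (hexp : ∀ z : ℂ, 1 < ‖z‖ → Complex.exp (h z) = deriv ψ z) {z : ℂ} (hz : 1 < ‖z‖) :
    (‖z‖ - 1) * ‖deriv h z‖ ≤ 28 / 3 := by
  set δ : ℝ := ‖z‖ - 1 with hδ
  have hδ0 : 0 < δ := by linarith
  have hδc : (δ : ℂ) ≠ 0 := by exact_mod_cast hδ0.ne'
  have hmem : ∀ ζ ∈ ball (0:ℂ) 1, z + δ * ζ ∈ {z : ℂ | 1 < ‖z‖} := by
    intro ζ hζ
    have hn : ‖ζ‖ < 1 := by simpa using hζ
    have h1 : ‖z‖ - ‖(δ:ℂ) * ζ‖ ≤ ‖z + δ * ζ‖ := by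
      have := norm_sub_norm_le z (-((δ:ℂ) * ζ))
      rwa [norm_neg, sub_neg_eq_add] at this
    have h2 : ‖(δ:ℂ) * ζ‖ = δ * ‖ζ‖ := by
      rw [norm_mul, Complex.norm_real, Real.norm_of_nonneg hδ0.le]
    rw [h2] at h1
    have h3 : δ * ‖ζ‖ < δ := by nlinarith
    show 1 < ‖z + δ * ζ‖
    linarith
  have hzm : z ∈ {z : ℂ | 1 < ‖z‖} := hz
  have hψ0 : deriv ψ z ≠ 0 := by rw [← hexp z hz]; exact Complex.exp_ne_zero _
  have haff : ∀ ζ : ℂ, HasDerivAt (fun ζ : ℂ => z + δ * ζ) (δ : ℂ) ζ := by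
    intro ζ
    have := ((hasDerivAt_id ζ).const_mul (δ:ℂ)).const_add z
    simpa using this
  set f : ℂ → ℂ := fun ζ => (ψ (z + δ * ζ) - ψ z) / (δ * deriv ψ z) with hf
  set k : ℂ → ℂ := fun ζ => h (z + δ * ζ) - h z with hk
  have hden : (δ:ℂ) * deriv ψ z ≠ 0 := mul_ne_zero hδc hψ0
  have hfd : ∀ ζ ∈ ball (0:ℂ) 1, HasDerivAt f (deriv ψ (z + δ * ζ) / deriv ψ z) ζ := by
    intro ζ hζ
    have h1 : HasDerivAt ψ (deriv ψ (z + δ * ζ)) (z + δ * ζ) :=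
      (hψ.differentiableAt (isOpen_ext.mem_nhds (hmem ζ hζ))).hasDerivAt
    have h2 := ((h1.comp ζ (haff ζ)).sub_const (ψ z)).div_const ((δ:ℂ) * deriv ψ z)
    have e : deriv ψ (z + δ * ζ) / deriv ψ z = deriv ψ (z + δ * ζ) * δ / (δ * deriv ψ z) := by
      field_simp
    rw [e]
    exact h2
  have hkd : ∀ ζ ∈ ball (0:ℂ) 1, HasDerivAt k (deriv h (z + δ * ζ) * δ) ζ := by
    intro ζ hζ
    have h1 : HasDerivAt h (deriv h (z + δ * ζ)) (z + δ * ζ) :=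
      (hh.differentiableAt (isOpen_ext.mem_nhds (hmem ζ hζ))).hasDerivAt
    exact (h1.comp ζ (haff ζ)).sub_const (h z)
  have key := second_coeff (f := f) (k := k)
    (fun ζ hζ => (hfd ζ hζ).differentiableAt.differentiableWithinAt)
    (by
      intro ζ hζ ω hω he
      simp only [hf] at he
      have h1 : ψ (z + δ * ζ) - ψ z = ψ (z + δ * ω) - ψ z := by
        rwa [div_left_inj' hden] at he
      have h2 : z + δ * ζ = z + δ * ω := hinj (hmem ζ hζ) (hmem ω hω) (sub_left_injective h1)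
      have h3 : (δ:ℂ) * ζ = δ * ω := add_left_cancel h2
      exact mul_left_cancel₀ hδc h3)
    (by simp [hf])
    (fun ζ hζ => (hkd ζ hζ).differentiableAt.differentiableWithinAt)
    (by simp [hk])
    (by
      intro ζ hζ
      rw [(hfd ζ hζ).deriv]
      simp only [hk]
      rw [Complex.exp_sub, hexp _ (hmem ζ hζ), hexp z hz])
  rw [(hkd 0 (mem_ball_self one_pos)).deriv, mul_zero, add_zero, norm_mul, Complex.norm_real,
    Real.norm_of_nonneg hδ0.le] at key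
  linarith

theorem bloch_disc {ψ h : ℂ → ℂ}
    (hψ : DifferentiableOn ℂ ψ {z : ℂ | 1 < ‖z‖})
    (hinj : InjOn ψ {z : ℂ | 1 < ‖z‖})
    (hb : ∃ b : ℂ, Tendsto (fun z => ψ z - z) (Bornology.cobounded ℂ) (𝓝 b))
    (hh : DifferentiableOn ℂ h {z : ℂ | 1 < ‖z‖})
    (hexp : ∀ z : ℂ, 1 < ‖z‖ → Complex.exp (h z) = deriv ψ z)
    (hh0 : Tendsto h (Bornology.cobounded ℂ) (𝓝 0)) {ζ : ℂ} (hζ : ζ ∈ ball (0:ℂ) 1) :
    (1 - ‖ζ‖ ^ 2) * ‖deriv (toDisc 0 h) ζ‖ ≤ 28 := by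
  obtain ⟨hd, hg⟩ := goluzin_disc hψ hinj hb hh hexp hh0
  have hn : ‖ζ‖ < 1 := by simpa using hζ
  have hn0 := norm_nonneg ζ
  by_cases hc : ‖ζ‖ ≤ 1 / 2
  · -- Cauchy estimate
    have hsub : closedBall ζ (1/4) ⊆ ball (0:ℂ) 1 := by
      intro ω hω
      rw [mem_closedBall, dist_eq_norm] at hω
      rw [mem_ball, dist_zero_right]
      have : ‖ω‖ ≤ ‖ω - ζ‖ + ‖ζ‖ := by
        have := norm_add_le (ω - ζ) ζ
        simpa using this
      linarith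
    have hbd : ∀ ω ∈ sphere ζ (1/4), ‖toDisc 0 h ω‖ ≤ 1 := by
      intro ω hω
      have hω' := sphere_subset_closedBall hω
      refine (hg ω (hsub hω')).trans ?_
      rw [mem_closedBall, dist_eq_norm] at hω'
      have h1 : ‖ω‖ ≤ 3 / 4 := by
        have := norm_add_le (ω - ζ) ζ
        simp only [sub_add_cancel] at this
        linarith
      have h2 : 0 < 1 - ‖ω‖ ^ 2 := by nlinarith [norm_nonneg ω]
      have h3 : 1 / (1 - ‖ω‖ ^ 2) ≤ 16 / 7 := by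
        rw [div_le_div_iff₀ h2 (by norm_num)]
        nlinarith [norm_nonneg ω]
      calc Real.log (1 / (1 - ‖ω‖ ^ 2)) ≤ Real.log (16 / 7) := Real.log_le_log (by positivity) h3
        _ ≤ 1 := by
            rw [Real.log_le_iff_le_exp (by norm_num)]
            have := Real.exp_one_gt_d9
            linarith
    have hdc : DiffContOnCl ℂ (toDisc 0 h) (ball ζ (1/4)) := by
      apply DifferentiableOn.diffContOnCl
      apply hd.mono
      rw [closure_ball ζ (by norm_num)]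
      exact hsub
    have h4 := Complex.norm_deriv_le_of_forall_mem_sphere_norm_le (by norm_num) hdc hbd
    have h5 : 1 - ‖ζ‖ ^ 2 ≤ 1 := by nlinarith
    have h6 : (0:ℝ) ≤ 1 - ‖ζ‖ ^ 2 := by nlinarith
    calc (1 - ‖ζ‖ ^ 2) * ‖deriv (toDisc 0 h) ζ‖ ≤ 1 * (1 / (1/4)) := by gcongr
      _ ≤ 28 := by norm_num
  · push Not at hc
    have hζ0 : ζ ≠ 0 := by
      rintro rfl
      simp at hc
      linarith
    have hpos : 0 < ‖ζ‖ := by linarith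
    have hm := inv_mem hζ hζ0
    have h1 : HasDerivAt (toDisc 0 h) (deriv h ζ⁻¹ * (-(ζ ^ 2)⁻¹)) ζ := by
      have h2 : HasDerivAt (fun ζ : ℂ => h ζ⁻¹) (deriv h ζ⁻¹ * (-(ζ ^ 2)⁻¹)) ζ :=
        ((hh.differentiableAt (isOpen_ext.mem_nhds hm)).hasDerivAt).comp ζ (hasDerivAt_inv hζ0)
      apply h2.congr_of_eventuallyEq
      filter_upwards [isOpen_ne.mem_nhds hζ0] with ω hω
      simp only [toDisc]
      rw [if_neg hω]
    rw [h1.deriv, norm_mul, norm_neg, norm_inv, norm_pow]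
    have h2 := preSchwarzian hψ hinj hh hexp hm
    rw [norm_inv] at h2
    set d : ℝ := ‖deriv h ζ⁻¹‖ with hdd
    have hd0 : 0 ≤ d := norm_nonneg _
    have h3 : (1 - ‖ζ‖) * d ≤ 28 / 3 * ‖ζ‖ := by
      have : (‖ζ‖⁻¹ - 1) * d * ‖ζ‖ ≤ 28 / 3 * ‖ζ‖ := mul_le_mul_of_nonneg_right h2 hpos.le
      have e : (‖ζ‖⁻¹ - 1) * d * ‖ζ‖ = (1 - ‖ζ‖) * d := by field_simp
      linarith
    have e : (1 - ‖ζ‖ ^ 2) * (d * (‖ζ‖ ^ 2)⁻¹) = (1 + ‖ζ‖) * ((1 - ‖ζ‖) * d) / ‖ζ‖ ^ 2 := by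
      field_simp
      ring
    rw [e, div_le_iff₀ (by positivity)]
    calc (1 + ‖ζ‖) * ((1 - ‖ζ‖) * d) ≤ (1 + ‖ζ‖) * (28 / 3 * ‖ζ‖) := by gcongr
      _ ≤ 28 * ‖ζ‖ ^ 2 := by nlinarith

end Pool.Agent.Helper39.Dim
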