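import Pool.Agent.Helper39.Area.Exterior
set_option autoImplicit false
open Complex MeasureTheory Metric Set Filter Topology
open scoped Real ENNReal ComplexConjugate NNReal

/-! A bound for the second coefficient of univalent functions and for the pre-Schwarzian
derivative in class `Σ` (with non-sharp constants). -/

namespace Pool.Agent.Helper39.Dim

open Pool.Agent.Helper39.Area

theorem exists_log {q : ℂ → ℂ} (hq : DifferentiableOn ℂ q (ball 0 1))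
    (hne : ∀ ζ ∈ ball (0:ℂ) 1, q ζ ≠ 0) (h0 : q 0 = 1) :
    ∃ F : ℂ → ℂ, DifferentiableOn ℂ F (ball 0 1) ∧ F 0 = 0 ∧
      ∀ ζ ∈ ball (0:ℂ) 1, Complex.exp (F ζ) = q ζ := by
  have hQd : DifferentiableOn ℂ (fun ζ => deriv q ζ / q ζ) (ball 0 1) :=
    (hq.deriv isOpen_ball).div hq hne
  obtain ⟨F, hF0, hF⟩ := hQd.isExactOn_ball.with_val_at 0 0
  have h0b : (0:ℂ) ∈ ball (0:ℂ) 1 := mem_ball_self one_pos
  refine ⟨F, fun ζ hζ => (hF ζ hζ).differentiableAt.differentiableWithinAt, hF0, ?_⟩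
  have hderiv : ∀ ζ ∈ ball (0:ℂ) 1, HasDerivAt (fun ζ => Complex.exp (-F ζ) * q ζ) 0 ζ := by
    intro ζ hζ
    have h1 := ((hF ζ hζ).neg.cexp).mul ((hq.differentiableAt (isOpen_ball.mem_nhds hζ)).hasDerivAt)
    have h2 := hne ζ hζ
    have e : (0:ℂ) = Complex.exp (-F ζ) * -(deriv q ζ / q ζ) * q ζ +
        Complex.exp (-F ζ) * deriv q ζ := by
      field_simp
      ring
    rw [e]
    exact h1
  intro ζ hζ
  have h1 : Complex.exp (-F ζ) * q ζ = Complex.exp (-F 0) * q 0 := by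
    apply (convex_ball (0:ℂ) 1).is_const_of_fderivWithin_eq_zero (𝕜 := ℂ)
      (f := fun ζ => Complex.exp (-F ζ) * q ζ) _ _ hζ h0b
    · intro ω hω
      exact (hderiv ω hω).differentiableAt.differentiableWithinAt
    · intro ω hω
      have h3 := (hderiv ω hω).hasFDerivAt.hasFDerivWithinAt (s := ball (0:ℂ) 1)
      rw [h3.fderivWithin (isOpen_ball.uniqueDiffWithinAt hω)]
      ext
      simp
  rw [hF0, neg_zero, Complex.exp_zero, one_mul, h0, Complex.exp_neg] at h1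
  have h3 := Complex.exp_ne_zero (F ζ)
  field_simp at h1
  exact h1.symm

/-- second coefficient bound for univalent functions on the disc, with `f' = exp k`. -/
theorem second_coeff {f k : ℂ → ℂ} (hf : DifferentiableOn ℂ f (ball 0 1))
    (hinj : InjOn f (ball 0 1)) (hf0 : f 0 = 0) (hk : DifferentiableOn ℂ k (ball 0 1))
    (hk0 : k 0 = 0) (hexp : ∀ ζ ∈ ball (0:ℂ) 1, Complex.exp (k ζ) = deriv f ζ) :
    ‖deriv k 0‖ ≤ 28 / 3 := by
  have h0b : (0:ℂ) ∈ ball (0:ℂ) 1 := mem_ball_self one_pos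
  have hb0 : ball (0:ℂ) 1 ∈ 𝓝 (0:ℂ) := ball_mem_nhds 0 one_pos
  have hf1 : deriv f 0 = 1 := by rw [← hexp 0 h0b, hk0, Complex.exp_zero]
  set g : ℂ → ℂ := dslope f 0 with hg
  have hgd : DifferentiableOn ℂ g (ball 0 1) := (Complex.differentiableOn_dslope hb0).mpr hf
  have hg0 : g 0 = 1 := by rw [hg, dslope_same, hf1]
  have hgf : ∀ ζ : ℂ, f ζ = ζ * g ζ := by
    intro ζ
    by_cases h : ζ = 0
    · subst h; simp [hf0]
    · rw [hg, dslope_of_ne _ h, slope_def_field, hf0]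
      field_simp
      ring
  have hfne : ∀ ζ ∈ ball (0:ℂ) 1, ζ ≠ 0 → f ζ ≠ 0 := by
    intro ζ hζ h h'
    exact h (hinj hζ h0b (by rw [h', hf0]))
  have hgne : ∀ ζ ∈ ball (0:ℂ) 1, g ζ ≠ 0 := by
    intro ζ hζ h
    by_cases h0 : ζ = 0
    · subst h0; rw [hg0] at h; exact one_ne_zero h
    · apply hfne ζ hζ h0
      rw [hgf, h, mul_zero]
  set g1 : ℂ → ℂ := dslope g 0 with hg1
  have hg1d : DifferentiableOn ℂ g1 (ball 0 1) := (Complex.differentiableOn_dslope hb0).mpr hgd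
  set β : ℂ → ℂ := fun ζ => -(g1 ζ / g ζ) with hβ
  have hβd : DifferentiableOn ℂ β (ball 0 1) := (hg1d.div hgd hgne).neg
  have hβf : ∀ ζ ∈ ball (0:ℂ) 1, ζ ≠ 0 → ζ⁻¹ + β ζ = (f ζ)⁻¹ := by
    intro ζ hζ h
    have h1 : g1 ζ = (g ζ - 1) / ζ := by
      rw [hg1, dslope_of_ne _ h, slope_def_field, hg0, sub_zero]
    have h2 := hgne ζ hζ
    simp only [hβ]
    rw [h1, hgf ζ]
    field_simp
    ring
  -- the derivative of `β`
  have hβ' : ∀ ζ ∈ ball (0:ℂ) 1, 1 - ζ ^ 2 * deriv β ζ = deriv f ζ / g ζ ^ 2 := by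
    intro ζ hζ
    by_cases h : ζ = 0
    · subst h; simp [hf1, hg0]
    · have h1 : HasDerivAt (fun ζ : ℂ => ζ⁻¹ + β ζ) (-(ζ ^ 2)⁻¹ + deriv β ζ) ζ :=
        (hasDerivAt_inv h).add ((hβd.differentiableAt (isOpen_ball.mem_nhds hζ)).hasDerivAt)
      have h2 : HasDerivAt (fun ζ : ℂ => (f ζ)⁻¹) (-deriv f ζ / f ζ ^ 2) ζ :=
        ((hf.differentiableAt (isOpen_ball.mem_nhds hζ)).hasDerivAt).inv (hfne ζ hζ h)
      have h3 : (fun ζ : ℂ => ζ⁻¹ + β ζ) =ᶠ[𝓝 ζ] fun ζ : ℂ => (f ζ)⁻¹ := by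
        filter_upwards [isOpen_ball.mem_nhds hζ, isOpen_ne.mem_nhds h] with ω hω hω0
        exact hβf ω hω hω0
      have h4 := (h1.congr_of_eventuallyEq h3.symm).unique h2
      have h5 : deriv β ζ = (ζ ^ 2)⁻¹ + -deriv f ζ / f ζ ^ 2 := by linear_combination h4
      have h6 := hgne ζ hζ
      rw [h5, hgf ζ]
      field_simp
      ring
  have hext : Ext β := by
    refine ⟨hβd, ?_, ?_⟩
    · intro ζ ω hζ hω hζ0 hω0 h
      rw [hβf ζ hζ hζ0, hβf ω hω hω0] at h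
      exact hinj hζ hω (inv_injective h)
    · intro ζ hζ
      rw [hβ' ζ hζ, ← hexp ζ hζ]
      exact div_ne_zero (Complex.exp_ne_zero _) (pow_ne_zero _ (hgne ζ hζ))
  obtain ⟨G, hGd, hG0, hG⟩ := exists_log hgd hgne hg0
  set H : ℂ → ℂ := fun ζ => k ζ - 2 * G ζ with hH
  have hHd : DifferentiableOn ℂ H (ball 0 1) := hk.sub (hGd.const_mul 2)
  have hHe : ∀ ζ ∈ ball (0:ℂ) 1, Complex.exp (H ζ) = 1 - ζ ^ 2 * deriv β ζ := by
    intro ζ hζ
    rw [hβ' ζ hζ, hH]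
    simp only
    rw [Complex.exp_sub, two_mul, Complex.exp_add, hexp ζ hζ, hG ζ hζ, sq]
  have hgol : ∀ ζ ∈ ball (0:ℂ) 1, ‖H ζ‖ ≤ -Real.log (1 - ‖ζ‖ ^ 2) := fun ζ hζ =>
    goluzin hext hHd.continuousOn (by simp [hH, hk0, hG0]) hHe hζ
  -- bound for `β'`
  have hβb : ∀ ζ ∈ ball (0:ℂ) 1, ζ ≠ 0 → ‖deriv β ζ‖ ≤ 1 / (1 - ‖ζ‖ ^ 2) := by
    intro ζ hζ h
    have hn : ‖ζ‖ < 1 := by simpa using hζ
    have hn0 : 0 < ‖ζ‖ := norm_pos_iff.mpr h
    have hd : 0 < 1 - ‖ζ‖ ^ 2 := by nlinarith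
    have h1 : ‖Complex.exp (H ζ) - 1‖ ≤ Real.exp ‖H ζ‖ - 1 := by
      have := Complex.norm_exp_sub_sum_le_exp_norm_sub_sum (H ζ) 1
      simpa using this
    have h2 : Real.exp ‖H ζ‖ ≤ 1 / (1 - ‖ζ‖ ^ 2) := by
      calc Real.exp ‖H ζ‖ ≤ Real.exp (-Real.log (1 - ‖ζ‖ ^ 2)) := Real.exp_le_exp.mpr (hgol ζ hζ)
        _ = 1 / (1 - ‖ζ‖ ^ 2) := by rw [Real.exp_neg, Real.exp_log hd, one_div]
    have h3 : ‖Complex.exp (H ζ) - 1‖ = ‖ζ‖ ^ 2 * ‖deriv β ζ‖ := by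
      rw [hHe ζ hζ]
      have : 1 - ζ ^ 2 * deriv β ζ - 1 = -(ζ ^ 2 * deriv β ζ) := by ring
      rw [this, norm_neg, norm_mul, norm_pow]
    rw [h3] at h1
    have h4 : ‖ζ‖ ^ 2 * ‖deriv β ζ‖ ≤ ‖ζ‖ ^ 2 * (1 / (1 - ‖ζ‖ ^ 2)) := by
      have e : ‖ζ‖ ^ 2 * (1 / (1 - ‖ζ‖ ^ 2)) = 1 / (1 - ‖ζ‖ ^ 2) - 1 := by
        field_simp
        ring
      rw [e]
      linarith
    exact le_of_mul_le_mul_left h4 (by positivity)
  have hβb2 : ∀ ζ ∈ closedBall (0:ℂ) (1/2), ‖deriv β ζ‖ ≤ 4 / 3 := by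
    have h5 : ∀ ζ ∈ closedBall (0:ℂ) (1/2), ζ ≠ 0 → ‖deriv β ζ‖ ≤ 4 / 3 := by
      intro ζ hζ h
      have hn : ‖ζ‖ ≤ 1 / 2 := by simpa using hζ
      have hζb : ζ ∈ ball (0:ℂ) 1 := by
        rw [mem_ball, dist_zero_right]; linarith
      refine (hβb ζ hζb h).trans ?_
      rw [div_le_div_iff₀ (by nlinarith [norm_nonneg ζ]) (by norm_num)]
      nlinarith [norm_nonneg ζ]
    intro ζ hζ
    by_cases h : ζ = 0
    · subst h
      have hc : ContinuousAt (fun ζ => ‖deriv β ζ‖) 0 :=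
        (((hβd.deriv isOpen_ball).continuousOn.continuousAt hb0)).norm
      have h6 : Tendsto (fun ζ => ‖deriv β ζ‖) (𝓝[≠] 0) (𝓝 ‖deriv β 0‖) :=
        hc.tendsto.mono_left nhdsWithin_le_nhds
      apply le_of_tendsto h6
      have h7 : closedBall (0:ℂ) (1/2) ∈ 𝓝[≠] (0:ℂ) :=
        mem_nhdsWithin_of_mem_nhds (closedBall_mem_nhds 0 (by norm_num))
      filter_upwards [h7, self_mem_nhdsWithin] with ω hω hω0
      exact h5 ω hω hω0
    · exact h5 ζ hζ h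
  have hβ0 : ‖β 0‖ ≤ 14 / 3 := by
    by_contra hcon
    push Not at hcon
    have hfb : ∀ ζ ∈ sphere (0:ℂ) (1/2), ‖f ζ‖ ≤ 1 / (‖β 0‖ - 8 / 3) := by
      intro ζ hζ
      have hn : ‖ζ‖ = 1 / 2 := by simpa using hζ
      have hζc : ζ ∈ closedBall (0:ℂ) (1/2) := sphere_subset_closedBall hζ
      have hζb : ζ ∈ ball (0:ℂ) 1 := by
        rw [mem_ball, dist_zero_right]; linarith
      have hζ0 : ζ ≠ 0 := by
        rintro rfl
        simp at hn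
      have h8 : ‖β ζ - β 0‖ ≤ 4 / 3 * ‖ζ - 0‖ := by
        apply (convex_closedBall (0:ℂ) (1/2)).norm_image_sub_le_of_norm_deriv_le
          (f := β) _ hβb2 (by simp) hζc
        intro ω hω
        apply hβd.differentiableAt (isOpen_ball.mem_nhds _)
        rw [mem_ball, dist_zero_right]
        have : ‖ω‖ ≤ 1 / 2 := by simpa using hω
        linarith
      rw [sub_zero, hn] at h8
      have h9 := hβf ζ hζb hζ0
      have h10 : ‖β 0‖ - 8 / 3 ≤ ‖(f ζ)⁻¹‖ := by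
        rw [← h9]
        have h11 : ‖β 0‖ ≤ ‖ζ⁻¹ + β ζ‖ + ‖ζ⁻¹‖ + ‖β ζ - β 0‖ := by
          have : β 0 = (ζ⁻¹ + β ζ) - ζ⁻¹ - (β ζ - β 0) := by ring
          calc ‖β 0‖ = ‖(ζ⁻¹ + β ζ) - ζ⁻¹ - (β ζ - β 0)‖ := by rw [← this]
            _ ≤ ‖(ζ⁻¹ + β ζ) - ζ⁻¹‖ + ‖β ζ - β 0‖ := norm_sub_le _ _
            _ ≤ ‖ζ⁻¹ + β ζ‖ + ‖ζ⁻¹‖ + ‖β ζ - β 0‖ := by
                gcongr
                exact norm_sub_le _ _
        have h12 : ‖ζ⁻¹‖ = 2 := by rw [norm_inv, hn]; norm_num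
        linarith
      rw [norm_inv] at h10
      have hfp : 0 < ‖f ζ‖ := norm_pos_iff.mpr (hfne ζ hζb hζ0)
      rw [le_div_iff₀ (by linarith)]
      have h13 : (‖β 0‖ - 8 / 3) * ‖f ζ‖ ≤ ‖f ζ‖⁻¹ * ‖f ζ‖ :=
        mul_le_mul_of_nonneg_right h10 hfp.le
      rw [inv_mul_cancel₀ hfp.ne'] at h13
      linarith
    have hdc : DiffContOnCl ℂ f (ball 0 (1/2)) := by
      apply DifferentiableOn.diffContOnCl
      apply hf.mono
      rw [closure_ball (0:ℂ) (by norm_num)]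
      exact closedBall_subset_ball (by norm_num)
    have h14 := Complex.norm_deriv_le_of_forall_mem_sphere_norm_le (by norm_num) hdc hfb
    rw [hf1, norm_one] at h14
    have h15 : 1 / (‖β 0‖ - 8 / 3) / (1 / 2) < 1 := by
      rw [div_div, div_lt_one (by nlinarith)]
      linarith
    linarith
  -- `k'(0) = -2 β(0)`
  have hH' : deriv H 0 = 0 := by
    have h1 : HasDerivAt (fun ζ => Complex.exp (H ζ)) (Complex.exp (H 0) * deriv H 0) 0 :=
      ((hHd.differentiableAt hb0).hasDerivAt).cexp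
    have h2 : HasDerivAt (fun ζ : ℂ => 1 - ζ ^ 2 * deriv β ζ)
        (0 - (((2:ℕ) * (0:ℂ) ^ 1 * 1) * deriv β 0 + (0:ℂ) ^ 2 * deriv (deriv β) 0)) 0 := by
      apply (hasDerivAt_const (0:ℂ) (1:ℂ)).sub
      exact ((hasDerivAt_id (0:ℂ)).pow 2).mul
        (((hβd.deriv isOpen_ball).differentiableAt hb0).hasDerivAt)
    have h3 : (fun ζ => Complex.exp (H ζ)) =ᶠ[𝓝 0] fun ζ : ℂ => 1 - ζ ^ 2 * deriv β ζ := by
      filter_upwards [hb0] with ζ hζ
      exact hHe ζ hζ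
    have h4 := (h1.congr_of_eventuallyEq h3.symm).unique h2
    have h5 : H 0 = 0 := by simp [hH, hk0, hG0]
    rw [h5, Complex.exp_zero] at h4
    simpa using h4
  have hG' : deriv G 0 = deriv g 0 := by
    have h1 : HasDerivAt (fun ζ => Complex.exp (G ζ)) (Complex.exp (G 0) * deriv G 0) 0 :=
      ((hGd.differentiableAt hb0).hasDerivAt).cexp
    have h3 : (fun ζ => Complex.exp (G ζ)) =ᶠ[𝓝 0] g := by
      filter_upwards [hb0] with ζ hζ
      exact hG ζ hζ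
    have h4 := (h1.congr_of_eventuallyEq h3.symm).deriv
    rw [hG0, Complex.exp_zero, one_mul] at h4
    exact h4.symm
  have hβ0' : β 0 = -deriv g 0 := by
    simp only [hβ, hg1, dslope_same, hg0, div_one]
  have hk' : deriv k 0 = 2 * deriv G 0 := by
    have h1 : HasDerivAt H (deriv k 0 - 2 * deriv G 0) 0 :=
      ((hk.differentiableAt hb0).hasDerivAt).sub
        (((hGd.differentiableAt hb0).hasDerivAt).const_mul 2)
    have h2 := h1.deriv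
    rw [hH'] at h2
    linear_combination -h2
  rw [hk', hG', norm_mul]
  have h3 : ‖deriv g 0‖ = ‖β 0‖ := by rw [hβ0', norm_neg]
  rw [h3]
  have : ‖(2:ℂ)‖ = 2 := by simp
  rw [this]
  linarith

end Pool.Agent.Helper39.Dim
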