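import Mathlib
set_option autoImplicit false
open Set Filter Topology

/-! A comparison principle for second order differential inequalities on `(-∞, 0)`. -/

namespace Pool.Agent.Helper39.Dim

theorem compare {U P Q J J1 J2 : ℝ → ℝ}
    (hU : ∀ τ : ℝ, τ < 0 → HasDerivAt U (P τ) τ) (hP : ∀ τ : ℝ, τ < 0 → HasDerivAt P (Q τ) τ)
    (hJ : ∀ τ : ℝ, τ < 0 → HasDerivAt J (J1 τ) τ) (hJ1 : ∀ τ : ℝ, τ < 0 → HasDerivAt J1 (J2 τ) τ)
    (hineq : ∀ τ : ℝ, τ < 0 → U τ ≤ J τ → Q τ ≤ J2 τ) {c : ℝ} (hc : 0 < c)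
    (hlim : Tendsto (fun τ => J τ - U τ) atBot (𝓝 c))
    (hlim1 : Tendsto (fun τ => J1 τ - P τ) atBot (𝓝 0)) :
    ∀ τ : ℝ, τ < 0 → U τ ≤ J τ := by
  by_contra hcon
  push Not at hcon
  obtain ⟨τ₁, h1, h2⟩ := hcon
  set W : ℝ → ℝ := fun τ => J τ - U τ with hW
  set W1 : ℝ → ℝ := fun τ => J1 τ - P τ with hW1
  have dW : ∀ τ : ℝ, τ < 0 → HasDerivAt W (W1 τ) τ := fun τ hτ => (hJ τ hτ).sub (hU τ hτ)
  have dW1 : ∀ τ : ℝ, τ < 0 → HasDerivAt W1 (J2 τ - Q τ) τ :=
    fun τ hτ => (hJ1 τ hτ).sub (hP τ hτ)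
  set S : Set ℝ := {τ : ℝ | τ ≤ τ₁ ∧ W τ ≤ 0} with hS
  have hne : S.Nonempty := ⟨τ₁, le_refl _, by simp only [hW]; linarith⟩
  obtain ⟨τ₂, hτ₂⟩ : ∃ τ₂ : ℝ, ∀ τ ≤ τ₂, 0 < W τ := by
    have h3 := hlim.eventually (lt_mem_nhds hc)
    rw [eventually_atBot] at h3
    exact h3
  have hbdd : BddBelow S := by
    refine ⟨τ₂, ?_⟩
    rintro τ ⟨_, h4⟩
    by_contra h5
    push Not at h5
    linarith [hτ₂ τ h5.le]
  set s : ℝ := sInf S with hs
  have hsτ : s ≤ τ₁ := csInf_le hbdd hne.some_mem |>.trans hne.some_mem.1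
  have hs0 : s < 0 := lt_of_le_of_lt hsτ h1
  have hpos : ∀ τ : ℝ, τ < s → 0 < W τ := by
    intro τ hτ
    by_contra h5
    push Not at h5
    have : τ ∈ S := ⟨by linarith, h5⟩
    linarith [csInf_le hbdd this]
  -- `W s ≤ 0`
  have hWs : W s ≤ 0 := by
    have h6 : s ∈ closure S := csInf_mem_closure hne hbdd
    rw [mem_closure_iff_seq_limit] at h6
    obtain ⟨x, hx, hxs⟩ := h6
    have h7 : Tendsto (fun n => W (x n)) atTop (𝓝 (W s)) :=
      ((dW s hs0).continuousAt.tendsto).comp hxs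
    exact le_of_tendsto' h7 (fun n => (hx n).2)
  have hW1mono : MonotoneOn W1 (Iio s) := by
    apply monotoneOn_of_deriv_nonneg (convex_Iio s)
    · intro τ hτ
      exact (dW1 τ (lt_trans hτ hs0)).continuousAt.continuousWithinAt
    · rw [interior_Iio]
      intro τ hτ
      exact (dW1 τ (lt_trans hτ hs0)).differentiableAt.differentiableWithinAt
    · rw [interior_Iio]
      intro τ hτ
      have h8 : τ < 0 := lt_trans hτ hs0
      rw [(dW1 τ h8).deriv]
      have h9 := hineq τ h8 (by have := hpos τ hτ; simp only [hW] at this; linarith)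
      linarith
  have hW1pos : ∀ τ : ℝ, τ < s → 0 ≤ W1 τ := by
    intro τ hτ
    have h10 : ∀ᶠ σ in atBot, W1 σ ≤ W1 τ := by
      filter_upwards [eventually_le_atBot τ] with σ hσ
      exact hW1mono (lt_of_le_of_lt hσ hτ) hτ hσ
    exact le_of_tendsto hlim1 h10
  have hWmono : MonotoneOn W (Iic s) := by
    apply monotoneOn_of_deriv_nonneg (convex_Iic s)
    · intro τ hτ
      exact (dW τ (lt_of_le_of_lt hτ hs0)).continuousAt.continuousWithinAt
    · rw [interior_Iic]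
      intro τ hτ
      exact (dW τ (lt_trans hτ hs0)).differentiableAt.differentiableWithinAt
    · rw [interior_Iic]
      intro τ hτ
      rw [(dW τ (lt_trans hτ hs0)).deriv]
      exact hW1pos τ hτ
  have h11 : c ≤ W s := by
    apply le_of_tendsto hlim
    filter_upwards [eventually_le_atBot s] with σ hσ
    exact hWmono hσ (le_refl s) hσ
  linarith

end Pool.Agent.Helper39.Dim
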