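import Mathlib
set_option autoImplicit false
open Complex MeasureTheory Metric Set Filter Topology
open scoped Real ENNReal ComplexConjugate NNReal RealInnerProductSpace

/-! The Gaussian identity `exp (‖w‖²/(4b)) = (b/π) ∫ exp (-b‖v‖² + Re (v̄ w)) dA(v)` and the passage
from integral means to exponential integrability. -/

namespace Pool.Agent.Helper39.Dim

theorem gauss_integrable {b : ℝ} (hb : 0 < b) (w : ℂ) :
    Integrable (fun v : ℂ => Real.exp (-b * ‖v‖ ^ 2 + (w * conj v).re)) := by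
  have h1 := GaussianFourier.integrable_cexp_neg_mul_sq_norm_add (V := ℂ) (b := (b : ℂ))
    (by simpa using hb) 1 w
  have h2 := h1.norm
  apply h2.congr
  filter_upwards with v
  rw [Complex.norm_exp, Complex.inner]
  congr 1
  have : (-(b:ℂ) * (‖v‖:ℂ) ^ 2 + 1 * (((v * conj w).re : ℝ) : ℂ)) =
      ((-b * ‖v‖ ^ 2 + (v * conj w).re : ℝ) : ℂ) := by
    push_cast; ring
  rw [this, Complex.ofReal_re]
  congr 1
  simp only [mul_re, conj_re, conj_im]
  ring

theorem gauss_integral {b : ℝ} (hb : 0 < b) (w : ℂ) :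
    ∫ v : ℂ, Real.exp (-b * ‖v‖ ^ 2 + (w * conj v).re) =
      π / b * Real.exp (‖w‖ ^ 2 / (4 * b)) := by
  have h1 := GaussianFourier.integral_cexp_neg_mul_sq_norm_add (V := ℂ) (b := (b : ℂ))
    (by simpa using hb) 1 w
  have h2 : (fun v : ℂ => Complex.exp (-(b:ℂ) * (‖v‖:ℂ) ^ 2 + 1 * ((⟪w, v⟫ : ℝ) : ℂ))) =
      fun v : ℂ => ((Real.exp (-b * ‖v‖ ^ 2 + (w * conj v).re) : ℝ) : ℂ) := by
    ext v
    rw [Complex.inner, Complex.ofReal_exp]
    congr 1
    push_cast
    have : (v * conj w).re = (w * conj v).re := by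
      simp only [mul_re, conj_re, conj_im]; ring
    rw [this]
    ring
  rw [h2, integral_complex_ofReal] at h1
  have h3 : Module.finrank ℝ ℂ = 2 := Complex.finrank_real_complex
  rw [h3] at h1
  have h4 : ((2:ℕ) / 2 : ℂ) = 1 := by norm_num
  rw [h4, Complex.cpow_one] at h1
  have h5 : (π / b : ℂ) * Complex.exp (1 ^ 2 * (‖w‖:ℂ) ^ 2 / (4 * b)) =
      ((π / b * Real.exp (‖w‖ ^ 2 / (4 * b)) : ℝ) : ℂ) := by
    push_cast
    congr 2
    ring
  rw [h5] at h1
  exact_mod_cast h1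

/-- from uniform integral means to exponential integrability -/
theorem gauss_bound {f : ℝ → ℂ} (hf : Continuous f) {b b' A : ℝ} (hb' : 0 ≤ b') (hbb : b' < b)
    (h : ∀ v : ℂ, ∫ θ in (0:ℝ)..(2 * π), Real.exp (f θ * conj v).re ≤
      A * Real.exp (b' * ‖v‖ ^ 2)) :
    ∫ θ in (0:ℝ)..(2 * π), Real.exp (‖f θ‖ ^ 2 / (4 * b)) ≤ A * (b / (b - b')) := by
  have hb : 0 < b := lt_of_le_of_lt hb' hbb
  have hd : 0 < b - b' := by linarith
  have h2π : (0:ℝ) ≤ 2 * π := by positivity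
  have hA : 0 ≤ A := by
    have h1 := h 0
    have h2 : 0 ≤ ∫ θ in (0:ℝ)..(2 * π), Real.exp (f θ * conj (0:ℂ)).re :=
      intervalIntegral.integral_nonneg h2π (fun θ _ => (Real.exp_pos _).le)
    simp only [norm_zero, ne_eq, OfNat.ofNat_ne_zero, not_false_eq_true, zero_pow, mul_zero,
      Real.exp_zero, mul_one] at h1 h2
    linarith
  -- pass to `lintegral`
  have c1 : Continuous (fun θ : ℝ => Real.exp (‖f θ‖ ^ 2 / (4 * b))) := by fun_prop
  have e1 : ENNReal.ofReal (∫ θ in (0:ℝ)..(2 * π), Real.exp (‖f θ‖ ^ 2 / (4 * b))) =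
      ∫⁻ θ in Ioc 0 (2 * π), ENNReal.ofReal (Real.exp (‖f θ‖ ^ 2 / (4 * b))) := by
    rw [intervalIntegral.integral_of_le h2π, ofReal_integral_eq_lintegral_ofReal]
    · exact (c1.intervalIntegrable 0 (2 * π)).1
    · exact ae_of_all _ (fun θ => (Real.exp_pos _).le)
  have e2 : ∀ θ : ℝ, ENNReal.ofReal (Real.exp (‖f θ‖ ^ 2 / (4 * b))) =
      ENNReal.ofReal (b / π) * ∫⁻ v : ℂ, ENNReal.ofReal
        (Real.exp (-b * ‖v‖ ^ 2 + (f θ * conj v).re)) := by
    intro θ
    rw [← ofReal_integral_eq_lintegral_ofReal (gauss_integrable hb _)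
      (ae_of_all _ (fun v => (Real.exp_pos _).le)), gauss_integral hb,
      ← ENNReal.ofReal_mul (by positivity)]
    congr 1
    have := Real.pi_pos.ne'
    field_simp
  have hmeas : AEMeasurable (Function.uncurry fun (θ : ℝ) (v : ℂ) =>
      ENNReal.ofReal (Real.exp (-b * ‖v‖ ^ 2 + (f θ * conj v).re)))
      ((volume.restrict (Ioc 0 (2 * π))).prod volume) := by
    apply Measurable.aemeasurable
    apply ENNReal.measurable_ofReal.comp
    apply Continuous.measurable
    fun_prop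
  have e3 : ∀ v : ℂ, (∫⁻ θ in Ioc 0 (2 * π), ENNReal.ofReal
        (Real.exp (-b * ‖v‖ ^ 2 + (f θ * conj v).re))) ≤
      ENNReal.ofReal (A * Real.exp (-(b - b') * ‖v‖ ^ 2)) := by
    intro v
    have c2 : Continuous (fun θ : ℝ => Real.exp (-b * ‖v‖ ^ 2 + (f θ * conj v).re)) := by fun_prop
    rw [← ofReal_integral_eq_lintegral_ofReal ((c2.intervalIntegrable 0 (2 * π)).1)
      (ae_of_all _ (fun θ => (Real.exp_pos _).le)), ← intervalIntegral.integral_of_le h2π]
    apply ENNReal.ofReal_le_ofReal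
    simp_rw [Real.exp_add]
    rw [intervalIntegral.integral_const_mul]
    calc Real.exp (-b * ‖v‖ ^ 2) * ∫ θ in (0:ℝ)..(2 * π), Real.exp (f θ * conj v).re
        ≤ Real.exp (-b * ‖v‖ ^ 2) * (A * Real.exp (b' * ‖v‖ ^ 2)) :=
          mul_le_mul_of_nonneg_left (h v) (Real.exp_pos _).le
      _ = A * Real.exp (-(b - b') * ‖v‖ ^ 2) := by
          have : -(b - b') * ‖v‖ ^ 2 = -b * ‖v‖ ^ 2 + b' * ‖v‖ ^ 2 := by ring
          rw [this, Real.exp_add]
          ring
  have e4 : Integrable (fun v : ℂ => A * Real.exp (-(b - b') * ‖v‖ ^ 2)) := by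
    have h1 := gauss_integrable hd 0
    simp only [zero_mul, zero_re, add_zero] at h1
    exact h1.const_mul A
  have e5 : ∫ v : ℂ, A * Real.exp (-(b - b') * ‖v‖ ^ 2) = A * (π / (b - b')) := by
    have h1 := gauss_integral hd 0
    simp only [zero_mul, zero_re, add_zero, norm_zero, ne_eq, OfNat.ofNat_ne_zero,
      not_false_eq_true, zero_pow, zero_div, Real.exp_zero, mul_one] at h1
    rw [integral_const_mul, h1]
  have e6 : ENNReal.ofReal (∫ θ in (0:ℝ)..(2 * π), Real.exp (‖f θ‖ ^ 2 / (4 * b))) ≤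
      ENNReal.ofReal (A * (b / (b - b'))) := by
    rw [e1]
    simp_rw [e2]
    rw [lintegral_const_mul' _ _ ENNReal.ofReal_ne_top, lintegral_lintegral_swap hmeas]
    calc ENNReal.ofReal (b / π) * ∫⁻ v : ℂ, ∫⁻ θ in Ioc 0 (2 * π), ENNReal.ofReal
          (Real.exp (-b * ‖v‖ ^ 2 + (f θ * conj v).re))
        ≤ ENNReal.ofReal (b / π) * ∫⁻ v : ℂ, ENNReal.ofReal
          (A * Real.exp (-(b - b') * ‖v‖ ^ 2)) := by
          gcongr with v
          exact e3 v
      _ = ENNReal.ofReal (A * (b / (b - b'))) := by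
          rw [← ofReal_integral_eq_lintegral_ofReal e4
            (ae_of_all _ (fun v => mul_nonneg hA (Real.exp_pos _).le)), e5,
            ← ENNReal.ofReal_mul (by positivity)]
          congr 1
          have := Real.pi_pos.ne'
          field_simp
  rwa [ENNReal.ofReal_le_ofReal_iff (by positivity)] at e6

end Pool.Agent.Helper39.Dim
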