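import Mathlib
set_option autoImplicit false
open Complex MeasureTheory Metric Set Filter Topology
open scoped Real ENNReal ComplexConjugate NNReal

/-! Hardy's identity for the integral means of `exp (Re F)`, in logarithmic coordinates. -/

namespace Pool.Agent.Helper39.Dim

/-- differentiation under the integral sign for jointly continuous data -/
theorem param {φ φ' : ℝ → ℝ → ℝ}
    (hc : ContinuousOn (fun p : ℝ × ℝ => φ p.1 p.2) (Iio 0 ×ˢ univ))
    (hc' : ContinuousOn (fun p : ℝ × ℝ => φ' p.1 p.2) (Iio 0 ×ˢ univ))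
    (hd : ∀ τ : ℝ, τ < 0 → ∀ θ : ℝ, HasDerivAt (fun τ => φ τ θ) (φ' τ θ) τ)
    {τ₀ : ℝ} (h₀ : τ₀ < 0) :
    HasDerivAt (fun τ => ∫ θ in (0:ℝ)..(2 * π), φ τ θ) (∫ θ in (0:ℝ)..(2 * π), φ' τ₀ θ) τ₀ := by
  have hs1 : ∀ τ : ℝ, τ < 0 → Continuous (fun θ : ℝ => φ τ θ) := by
    intro τ hτ
    have h1 : ContinuousOn (fun θ : ℝ => φ τ θ) univ :=
      hc.comp (f := fun θ : ℝ => ((τ, θ) : ℝ × ℝ)) (by fun_prop) (fun θ _ => ⟨hτ, mem_univ _⟩)
    exact continuousOn_univ.mp h1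
  have hs2 : ∀ τ : ℝ, τ < 0 → Continuous (fun θ : ℝ => φ' τ θ) := by
    intro τ hτ
    have h1 : ContinuousOn (fun θ : ℝ => φ' τ θ) univ :=
      hc'.comp (f := fun θ : ℝ => ((τ, θ) : ℝ × ℝ)) (by fun_prop) (fun θ _ => ⟨hτ, mem_univ _⟩)
    exact continuousOn_univ.mp h1
  obtain ⟨C, hC⟩ : ∃ C : ℝ, ∀ p ∈ Icc (τ₀ - 1) (τ₀ / 2) ×ˢ Icc (0:ℝ) (2 * π),
      ‖φ' p.1 p.2‖ ≤ C := by
    apply (isCompact_Icc.prod isCompact_Icc).exists_bound_of_continuousOn
    apply hc'.mono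
    rintro ⟨a, b⟩ ⟨ha, _⟩
    refine ⟨?_, mem_univ _⟩
    have : a ≤ τ₀ / 2 := ha.2
    show a < 0
    linarith
  have hnb : Ioo (τ₀ - 1) (τ₀ / 2) ∈ 𝓝 τ₀ := Ioo_mem_nhds (by linarith) (by linarith)
  refine (intervalIntegral.hasDerivAt_integral_of_dominated_loc_of_deriv_le
    (bound := fun _ => C) hnb ?_ ?_ ?_ ?_ ?_ ?_).2
  · filter_upwards [Iio_mem_nhds h₀] with τ hτ
    exact (hs1 τ hτ).aestronglyMeasurable
  · exact (hs1 τ₀ h₀).intervalIntegrable _ _
  · exact (hs2 τ₀ h₀).aestronglyMeasurable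
  · refine ae_of_all _ (fun θ hθ τ hτ => ?_)
    rw [uIoc_of_le (by positivity)] at hθ
    exact hC (τ, θ) ⟨⟨hτ.1.le, hτ.2.le⟩, ⟨hθ.1.le, hθ.2⟩⟩
  · exact intervalIntegrable_const
  · refine ae_of_all _ (fun θ _ τ hτ => hd τ ?_ θ)
    have := hτ.2
    linarith

/-- the point `exp (τ + i θ)` -/
noncomputable def pt (τ θ : ℝ) : ℂ := Complex.exp ((τ : ℂ) + (θ : ℂ) * I)

theorem norm_pt (τ θ : ℝ) : ‖pt τ θ‖ = Real.exp τ := by
  rw [pt, Complex.norm_exp]
  simp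

theorem pt_mem {τ : ℝ} (hτ : τ < 0) (θ : ℝ) : pt τ θ ∈ ball (0:ℂ) 1 := by
  rw [mem_ball, dist_zero_right, norm_pt]
  exact Real.exp_lt_one_iff.mpr hτ

theorem pt_ne (τ θ : ℝ) : pt τ θ ≠ 0 := Complex.exp_ne_zero _

theorem continuous_pt : Continuous (fun p : ℝ × ℝ => pt p.1 p.2) := by
  unfold pt
  fun_prop

theorem hasDerivAt_pt_left (τ θ : ℝ) : HasDerivAt (fun τ : ℝ => pt τ θ) (pt τ θ) τ := by
  have h1 : HasDerivAt (fun z : ℂ => Complex.exp (z + (θ : ℂ) * I))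
      (Complex.exp ((τ : ℂ) + (θ : ℂ) * I) * 1) (τ : ℂ) :=
    ((hasDerivAt_id (τ : ℂ)).add_const _).cexp
  have h2 := h1.comp_ofReal
  simpa [pt] using h2

theorem hasDerivAt_pt_right (τ θ : ℝ) : HasDerivAt (fun θ : ℝ => pt τ θ) (I * pt τ θ) θ := by
  have h1 : HasDerivAt (fun z : ℂ => Complex.exp ((τ : ℂ) + z * I))
      (Complex.exp ((τ : ℂ) + (θ : ℂ) * I) * (1 * I)) (θ : ℂ) :=
    (((hasDerivAt_id (θ : ℂ)).mul_const I).const_add _).cexp
  have h2 := h1.comp_ofReal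
  have e : I * pt τ θ = Complex.exp ((τ : ℂ) + (θ : ℂ) * I) * (1 * I) := by
    simp only [pt]; ring
  rw [e]
  exact h2

variable {F : ℂ → ℂ}

/-- the Euler derivative `ζ F'(ζ)` -/
noncomputable def eul (F : ℂ → ℂ) (ζ : ℂ) : ℂ := ζ * deriv F ζ

theorem eul_diff (hF : DifferentiableOn ℂ F (ball 0 1)) : DifferentiableOn ℂ (eul F) (ball 0 1) :=
  differentiableOn_id.mul (hF.deriv isOpen_ball)

theorem hasDerivAt_left (hF : DifferentiableOn ℂ F (ball 0 1)) {τ : ℝ} (hτ : τ < 0) (θ : ℝ) :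
    HasDerivAt (fun τ : ℝ => F (pt τ θ)) (eul F (pt τ θ)) τ := by
  have h1 := (hF.differentiableAt (isOpen_ball.mem_nhds (pt_mem hτ θ))).hasDerivAt
  have h2 := h1.scomp τ (hasDerivAt_pt_left τ θ)
  simpa [eul, Function.comp_def] using h2

theorem hasDerivAt_right (hF : DifferentiableOn ℂ F (ball 0 1)) {τ : ℝ} (hτ : τ < 0) (θ : ℝ) :
    HasDerivAt (fun θ : ℝ => F (pt τ θ)) (I * eul F (pt τ θ)) θ := by
  have h1 := (hF.differentiableAt (isOpen_ball.mem_nhds (pt_mem hτ θ))).hasDerivAt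
  have h2 := h1.scomp θ (hasDerivAt_pt_right τ θ)
  have e : I * eul F (pt τ θ) = (I * pt τ θ) • deriv F (pt τ θ) := by
    simp only [eul, smul_eq_mul]; ring
  rw [e]
  exact h2

theorem hasDerivAt_re {f : ℝ → ℂ} {f' : ℂ} {x : ℝ} (h : HasDerivAt f f' x) :
    HasDerivAt (fun x => (f x).re) f'.re x := by
  have := (Complex.reCLM.hasFDerivAt (x := f x)).comp_hasDerivAt x h
  simpa [Function.comp_def] using this

theorem hasDerivAt_im {f : ℝ → ℂ} {f' : ℂ} {x : ℝ} (h : HasDerivAt f f' x) :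
    HasDerivAt (fun x => (f x).im) f'.im x := by
  have := (Complex.imCLM.hasFDerivAt (x := f x)).comp_hasDerivAt x h
  simpa [Function.comp_def] using this

/-- the weight `exp (Re F)` -/
noncomputable def wt (F : ℂ → ℂ) (τ θ : ℝ) : ℝ := Real.exp (F (pt τ θ)).re

/-- integral means -/
noncomputable def U (F : ℂ → ℂ) (τ : ℝ) : ℝ := ∫ θ in (0:ℝ)..(2 * π), wt F τ θ

noncomputable def P (F : ℂ → ℂ) (τ : ℝ) : ℝ :=
  ∫ θ in (0:ℝ)..(2 * π), (eul F (pt τ θ)).re * wt F τ θ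

noncomputable def Q (F : ℂ → ℂ) (τ : ℝ) : ℝ :=
  ∫ θ in (0:ℝ)..(2 * π), ‖eul F (pt τ θ)‖ ^ 2 * wt F τ θ

theorem cont_pt (hF : ContinuousOn F (ball 0 1)) :
    ContinuousOn (fun p : ℝ × ℝ => F (pt p.1 p.2)) (Iio 0 ×ˢ univ) :=
  hF.comp continuous_pt.continuousOn (fun p hp => pt_mem hp.1 p.2)

theorem cont_wt (hF : ContinuousOn F (ball 0 1)) :
    ContinuousOn (fun p : ℝ × ℝ => wt F p.1 p.2) (Iio 0 ×ˢ univ) :=
  Real.continuous_exp.comp_continuousOn (Complex.continuous_re.comp_continuousOn (cont_pt hF))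

theorem hasDerivAt_wt_left (hF : DifferentiableOn ℂ F (ball 0 1)) {τ : ℝ} (hτ : τ < 0) (θ : ℝ) :
    HasDerivAt (fun τ : ℝ => wt F τ θ) ((eul F (pt τ θ)).re * wt F τ θ) τ := by
  have h1 := (hasDerivAt_re (hasDerivAt_left hF hτ θ)).exp
  rw [mul_comm] at h1
  exact h1

theorem hasDerivAt_wt_right (hF : DifferentiableOn ℂ F (ball 0 1)) {τ : ℝ} (hτ : τ < 0) (θ : ℝ) :
    HasDerivAt (fun θ : ℝ => wt F τ θ) (-(eul F (pt τ θ)).im * wt F τ θ) θ := by
  have h1 := (hasDerivAt_re (hasDerivAt_right hF hτ θ)).exp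
  have e : -(eul F (pt τ θ)).im * wt F τ θ = Real.exp (F (pt τ θ)).re * (I * eul F (pt τ θ)).re := by
    simp [wt]
    ring
  rw [e]
  exact h1

theorem hasDerivAt_U (hF : DifferentiableOn ℂ F (ball 0 1)) {τ : ℝ} (hτ : τ < 0) :
    HasDerivAt (U F) (P F τ) τ := by
  apply param (φ := fun τ θ => wt F τ θ) (φ' := fun τ θ => (eul F (pt τ θ)).re * wt F τ θ)
    (cont_wt hF.continuousOn) _ (fun τ hτ θ => hasDerivAt_wt_left hF hτ θ) hτ
  exact (Complex.continuous_re.comp_continuousOn (cont_pt (eul_diff hF).continuousOn)).mul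
    (cont_wt hF.continuousOn)

theorem pt_add_two_pi (τ : ℝ) : pt τ (2 * π) = pt τ 0 := by
  simp only [pt]
  push_cast
  rw [Complex.exp_add, Complex.exp_add, Complex.exp_two_pi_mul_I]
  simp

theorem hasDerivAt_P (hF : DifferentiableOn ℂ F (ball 0 1)) {τ : ℝ} (hτ : τ < 0) :
    HasDerivAt (P F) (Q F τ) τ := by
  have hE := eul_diff hF
  have hEE := eul_diff hE
  have cE := cont_pt hE.continuousOn
  have cEE := cont_pt hEE.continuousOn
  have cw := cont_wt hF.continuousOn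
  have h1 : HasDerivAt (P F) (∫ θ in (0:ℝ)..(2 * π),
      ((eul (eul F) (pt τ θ)).re * wt F τ θ +
        (eul F (pt τ θ)).re * ((eul F (pt τ θ)).re * wt F τ θ))) τ := by
    apply param (φ := fun τ θ => (eul F (pt τ θ)).re * wt F τ θ)
      (φ' := fun τ θ => (eul (eul F) (pt τ θ)).re * wt F τ θ +
        (eul F (pt τ θ)).re * ((eul F (pt τ θ)).re * wt F τ θ)) _ _ _ hτ
    · exact (Complex.continuous_re.comp_continuousOn cE).mul cw
    · exact ((Complex.continuous_re.comp_continuousOn cEE).mul cw).add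
        ((Complex.continuous_re.comp_continuousOn cE).mul
          ((Complex.continuous_re.comp_continuousOn cE).mul cw))
    · intro τ hτ θ
      exact (hasDerivAt_re (hasDerivAt_left hE hτ θ)).mul (hasDerivAt_wt_left hF hτ θ)
  -- the angular derivative integrates to zero
  have hslice : ∀ {f : ℝ × ℝ → ℝ}, ContinuousOn f (Iio 0 ×ˢ univ) →
      Continuous (fun θ : ℝ => f (τ, θ)) := by
    intro f hf
    have h1 : ContinuousOn (fun θ : ℝ => f (τ, θ)) univ :=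
      hf.comp (f := fun θ : ℝ => ((τ, θ) : ℝ × ℝ)) (by fun_prop) (fun θ _ => ⟨hτ, mem_univ _⟩)
    exact continuousOn_univ.mp h1
  have cre : Continuous (fun θ : ℝ => (eul F (pt τ θ)).re) :=
    hslice (Complex.continuous_re.comp_continuousOn cE)
  have cim : Continuous (fun θ : ℝ => (eul F (pt τ θ)).im) :=
    hslice (Complex.continuous_im.comp_continuousOn cE)
  have cre2 : Continuous (fun θ : ℝ => (eul (eul F) (pt τ θ)).re) :=
    hslice (Complex.continuous_re.comp_continuousOn cEE)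
  have cw' : Continuous (fun θ : ℝ => wt F τ θ) := hslice cw
  have h2 : ∫ θ in (0:ℝ)..(2 * π), ((eul (eul F) (pt τ θ)).re * wt F τ θ +
      (eul F (pt τ θ)).im * (-(eul F (pt τ θ)).im * wt F τ θ)) = 0 := by
    have h3 : ∀ θ ∈ uIcc (0:ℝ) (2 * π), HasDerivAt
        (fun θ : ℝ => (eul F (pt τ θ)).im * wt F τ θ)
        ((eul (eul F) (pt τ θ)).re * wt F τ θ +
          (eul F (pt τ θ)).im * (-(eul F (pt τ θ)).im * wt F τ θ)) θ := by
      intro θ _
      have h4 := (hasDerivAt_im (hasDerivAt_right hE hτ θ)).mul (hasDerivAt_wt_right hF hτ θ)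
      have e : (I * eul (eul F) (pt τ θ)).im = (eul (eul F) (pt τ θ)).re := by simp
      rw [e] at h4
      exact h4
    rw [intervalIntegral.integral_eq_sub_of_hasDerivAt h3]
    · simp only [wt, pt_add_two_pi]
      ring
    · apply Continuous.intervalIntegrable
      fun_prop
  have h5 : Q F τ = ∫ θ in (0:ℝ)..(2 * π), ((eul (eul F) (pt τ θ)).re * wt F τ θ +
        (eul F (pt τ θ)).re * ((eul F (pt τ θ)).re * wt F τ θ)) := by
    have h6 : Q F τ = ∫ θ in (0:ℝ)..(2 * π), (((eul (eul F) (pt τ θ)).re * wt F τ θ +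
        (eul F (pt τ θ)).re * ((eul F (pt τ θ)).re * wt F τ θ)) -
        ((eul (eul F) (pt τ θ)).re * wt F τ θ +
          (eul F (pt τ θ)).im * (-(eul F (pt τ θ)).im * wt F τ θ))) := by
      unfold Q
      congr 1
      ext θ
      have : ‖eul F (pt τ θ)‖ ^ 2 = (eul F (pt τ θ)).re ^ 2 + (eul F (pt τ θ)).im ^ 2 := by
        rw [← Complex.normSq_eq_norm_sq, Complex.normSq_apply]
        ring
      rw [this]
      ring
    rw [h6, intervalIntegral.integral_sub, h2, sub_zero]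
    · apply Continuous.intervalIntegrable
      fun_prop
    · apply Continuous.intervalIntegrable
      fun_prop
  rw [h5]
  exact h1

end Pool.Agent.Helper39.Dim
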