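import Pool.Agent.Helper39.Dim.Means
import Pool.Agent.Helper39.Dim.Gauss
import Pool.Agent.Helper39.Dim.Bloch2
set_option autoImplicit false
open Complex MeasureTheory Metric Set Filter Topology
open scoped Real ENNReal ComplexConjugate NNReal

/-! The dimension theorem. -/

namespace Pool.Agent.Helper39.Dim

open Pool.Agent.Helper39.Area

theorem deriv_toDisc {h : ℂ → ℂ} (hh : DifferentiableOn ℂ h {z : ℂ | 1 < ‖z‖}) {ζ : ℂ}
    (hζ : ζ ∈ ball (0:ℂ) 1) (h0 : ζ ≠ 0) :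
    deriv (toDisc 0 h) ζ = deriv h ζ⁻¹ * (-(ζ ^ 2)⁻¹) := by
  have h2 : HasDerivAt (fun ζ : ℂ => h ζ⁻¹) (deriv h ζ⁻¹ * (-(ζ ^ 2)⁻¹)) ζ :=
    ((hh.differentiableAt (isOpen_ext.mem_nhds (inv_mem hζ h0))).hasDerivAt).comp ζ
      (hasDerivAt_inv h0)
  have h1 : HasDerivAt (toDisc 0 h) (deriv h ζ⁻¹ * (-(ζ ^ 2)⁻¹)) ζ := by
    apply h2.congr_of_eventuallyEq
    filter_upwards [isOpen_ne.mem_nhds h0] with ω hω
    simp only [toDisc]
    rw [if_neg hω]
  exact h1.deriv

/-- the exceptional set at radius `r` -/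
def extExc (h : ℂ → ℂ) (ρ r : ℝ) : Set ℝ :=
  {θ : ℝ | θ ∈ Ioc (0:ℝ) (2 * π) ∧
    ρ < (r ^ 2 - 1) * ‖deriv h ((r : ℂ) * Complex.exp ((θ : ℂ) * I))‖}

theorem exc_measure {h : ℂ → ℂ} (hh : DifferentiableOn ℂ h {z : ℂ | 1 < ‖z‖}) {ρ τ : ℝ}
    (hτ : τ < 0) :
    (volume (exc (toDisc 0 h) ρ τ)).toReal ≤ (volume (extExc h ρ (Real.exp (-τ)))).toReal := by
  have hsub : extExc h ρ (Real.exp (-τ)) ⊆ Ioc 0 (2 * π) := fun θ hθ => hθ.1
  have hfin : volume (extExc h ρ (Real.exp (-τ))) ≠ ⊤ :=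
    ((measure_mono hsub).trans_lt measure_Ioc_lt_top).ne
  apply ENNReal.toReal_mono hfin
  have h1 : exc (toDisc 0 h) ρ τ ⊆ {2 * π} ∪ (fun θ : ℝ => 2 * π - θ) ⁻¹'
      (extExc h ρ (Real.exp (-τ))) := by
    rintro θ ⟨hθ, hlt⟩
    by_cases h2 : θ = 2 * π
    · exact Or.inl h2
    · right
      refine ⟨⟨?_, ?_⟩, ?_⟩
      · have := lt_of_le_of_ne hθ.2 h2
        simp only [sub_pos]
        exact this
      · have := hθ.1
        simp only
        linarith
      · rw [deriv_toDisc hh (pt_mem hτ θ) (pt_ne τ θ), norm_mul, norm_neg, norm_inv, norm_pow,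
          norm_pt] at hlt
        have e1 : (pt τ θ)⁻¹ = ((Real.exp (-τ) : ℝ) : ℂ) *
            Complex.exp (((2 * π - θ : ℝ) : ℂ) * I) := by
          rw [pt, ← Complex.exp_neg]
          push_cast
          have : ((2 * (π : ℂ) - θ) * I) = -(θ * I) + 2 * π * I := by ring
          rw [this, Complex.exp_add (-(θ * I)) (2 * π * I), Complex.exp_two_pi_mul_I, mul_one,
            ← Complex.exp_add]
          congr 1
          ring
        rw [e1] at hlt
        have e2 : (1 - Real.exp τ ^ 2) *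
            (‖deriv h (((Real.exp (-τ) : ℝ) : ℂ) * Complex.exp (((2 * π - θ : ℝ) : ℂ) * I))‖ *
              (Real.exp τ ^ 2)⁻¹) = (Real.exp (-τ) ^ 2 - 1) *
            ‖deriv h (((Real.exp (-τ) : ℝ) : ℂ) * Complex.exp (((2 * π - θ : ℝ) : ℂ) * I))‖ := by
          rw [Real.exp_neg]
          have := (Real.exp_pos τ).ne'
          field_simp
        rw [e2] at hlt
        exact hlt
  calc volume (exc (toDisc 0 h) ρ τ) ≤ volume ({2 * π} ∪ (fun θ : ℝ => 2 * π - θ) ⁻¹'
        (extExc h ρ (Real.exp (-τ)))) := measure_mono h1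
    _ ≤ volume ({2 * π} : Set ℝ) + volume ((fun θ : ℝ => 2 * π - θ) ⁻¹'
        (extExc h ρ (Real.exp (-τ)))) := measure_union_le _ _
    _ = volume ((fun θ : ℝ => 2 * π - θ) ⁻¹' (extExc h ρ (Real.exp (-τ)))) := by
        rw [Real.volume_singleton, zero_add]
    _ ≤ volume (extExc h ρ (Real.exp (-τ))) := by
        have hm : MeasurableSet (extExc h ρ (Real.exp (-τ))) := by
          have hc : Continuous (fun θ : ℝ =>
              ‖deriv h (((Real.exp (-τ) : ℝ) : ℂ) * Complex.exp ((θ : ℂ) * I))‖) := by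
            apply Continuous.norm
            apply (hh.deriv isOpen_ext).continuousOn.comp_continuous (by fun_prop)
            intro θ
            show 1 < ‖_‖
            rw [norm_mul, Complex.norm_real, Complex.norm_exp_ofReal_mul_I, mul_one,
              Real.norm_of_nonneg (Real.exp_pos _).le]
            exact Real.one_lt_exp_iff.mpr (by linarith)
          exact measurableSet_Ioc.inter (measurableSet_lt measurable_const
            (hc.measurable.const_mul _))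
        exact (((volume : Measure ℝ).measurePreserving_sub_left (2 * π)).measure_preimage hm.nullMeasurableSet).le

/-- **Dimension theorem.** -/
theorem dimension (a β κ ρ M : ℝ) (ha0 : 0 < a) (haβ : a * κ ^ 2 < 1 - β)
    (haρ : a * ρ ^ 2 < 1) :
    ∃ C : ℝ, ∀ R : ℝ, 1 < R → ∀ ψ h : ℂ → ℂ,
      DifferentiableOn ℂ ψ {z : ℂ | 1 < ‖z‖} →
      Set.InjOn ψ {z : ℂ | 1 < ‖z‖} →
      (∃ b : ℂ, Filter.Tendsto (fun z => ψ z - z) (Bornology.cobounded ℂ) (nhds b)) →
      DifferentiableOn ℂ h {z : ℂ | 1 < ‖z‖} →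
      (∀ z : ℂ, 1 < ‖z‖ → Complex.exp (h z) = deriv ψ z) →
      Filter.Tendsto h (Bornology.cobounded ℂ) (nhds 0) →
      (κ < 1 → ∀ z : ℂ, 1 < ‖z‖ → ‖h z‖ ≤ κ * Real.log (‖z‖ ^ 2 / (‖z‖ ^ 2 - 1))) →
      (∀ r : ℝ, 1 < r → r < 2 →
        (volume {θ : ℝ | θ ∈ Set.Ioc 0 (2 * Real.pi) ∧ ρ < (r ^ 2 - 1) *
          ‖deriv h ((r : ℂ) * Complex.exp ((θ : ℂ) * Complex.I))‖}).toReal ≤
        M * (r ^ 2 - 1) ^ (1 - β)) →
      (1 / (2 * Real.pi)) * ∫ θ in (0:ℝ)..(2 * Real.pi),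
        Real.exp (a * ‖h ((R : ℂ) * Complex.exp ((θ : ℂ) * Complex.I))‖ ^ 2
          / Real.log (R ^ 2 / (R ^ 2 - 1))) ≤ C := by
  -- the intermediate exponent
  set ε : ℝ := min ((1 - β - a * κ ^ 2) / (2 * (κ ^ 2 + 1)))
    ((1 - a * ρ ^ 2) / (2 * (ρ ^ 2 + 1))) with hε
  have hε0 : 0 < ε := by
    apply lt_min
    · apply div_pos (by linarith) (by positivity)
    · apply div_pos (by linarith) (by positivity)
  set α : ℝ := a + ε with hα
  have hα0 : 0 < α := by linarith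
  have hαa : a < α := by linarith
  have hαβ : α * κ ^ 2 ≤ 1 - β := by
    have h1 := min_le_left ((1 - β - a * κ ^ 2) / (2 * (κ ^ 2 + 1)))
      ((1 - a * ρ ^ 2) / (2 * (ρ ^ 2 + 1)))
    rw [← hε, le_div_iff₀ (by positivity)] at h1
    have h2 : κ ^ 2 * ε ≤ (1 - β - a * κ ^ 2) / 2 := by nlinarith [sq_nonneg κ]
    rw [hα]
    nlinarith
  have hαρ : ρ ^ 2 < 1 / α := by
    rw [lt_div_iff₀ hα0]
    have h1 := min_le_right ((1 - β - a * κ ^ 2) / (2 * (κ ^ 2 + 1)))
      ((1 - a * ρ ^ 2) / (2 * (ρ ^ 2 + 1)))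
    rw [← hε, le_div_iff₀ (by positivity)] at h1
    have h2 : ρ ^ 2 * ε ≤ (1 - a * ρ ^ 2) / 2 := by nlinarith [sq_nonneg ρ]
    rw [hα]
    nlinarith
  have hp : 0 < 1 - β := by nlinarith [sq_nonneg κ]
  set M' : ℝ := 4 ^ (1 - β) * (|M| + 1) with hM'
  have h4 : (0:ℝ) < 4 ^ (1 - β) := by positivity
  have hM'0 : 0 ≤ M' := by positivity
  set A0 : ℝ := 2 + (28:ℝ) ^ 2 * M' / (1 / α - ρ ^ 2) with hA0
  refine ⟨1 / (2 * π) * ((2 * π * A0) * (α / (α - a))), ?_⟩
  intro R hR ψ h hψ hinj hb hh hexp hh0 hκ hexc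
  have hR0 : 0 < R := by linarith
  apply mul_le_mul_of_nonneg_left _ (by positivity)
  rw [integral_transfer h a R hR]
  set H : ℂ → ℂ := toDisc 0 h with hH
  obtain ⟨hd, hg'⟩ := goluzin_disc hψ hinj hb hh hexp hh0
  have hg : ∀ ζ ∈ ball (0:ℂ) 1, ‖H ζ‖ ≤ κ * Real.log (1 / (1 - ‖ζ‖ ^ 2)) := by
    intro ζ hζ
    have hn : ‖ζ‖ < 1 := by simpa using hζ
    have hn0 := norm_nonneg ζ
    by_cases hκ1 : κ < 1
    · by_cases h0 : ζ = 0
      · subst h0
        simp [hH, toDisc]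
      · have h1 := hκ hκ1 ζ⁻¹ (inv_mem hζ h0)
        have h2 : H ζ = h ζ⁻¹ := by
          simp only [hH, toDisc]
          rw [if_neg h0]
        rw [h2]
        refine h1.trans (le_of_eq ?_)
        congr 2
        rw [norm_inv]
        have h3 : ‖ζ‖ ≠ 0 := norm_ne_zero_iff.mpr h0
        have h4 : 1 - ‖ζ‖ ^ 2 ≠ 0 := by nlinarith
        field_simp
    · push Not at hκ1
      have h1 := hg' ζ hζ
      have h2 : 0 ≤ Real.log (1 / (1 - ‖ζ‖ ^ 2)) := (norm_nonneg _).trans h1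
      nlinarith
  have hH0 : H 0 = 0 := by simp [hH, toDisc]
  have hB : ∀ ζ ∈ ball (0:ℂ) 1, (1 - ‖ζ‖ ^ 2) * ‖deriv H ζ‖ ≤ 28 := fun ζ hζ =>
    bloch_disc hψ hinj hb hh hexp hh0 hζ
  -- the exceptional set in the disc
  have hE : ∀ τ : ℝ, τ < 0 → (volume (exc H ρ τ)).toReal ≤ 2 * π * (M' * yy τ ^ (1 - β)) := by
    intro τ hτ
    have hy := yy_pos hτ
    have hyp : 0 < yy τ ^ (1 - β) := Real.rpow_pos_of_pos hy _
    have hpi : (1:ℝ) ≤ 2 * π := by linarith [Real.pi_gt_three]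
    by_cases hc : Real.exp (-τ) < 2
    · have h1 := exc_measure hh (ρ := ρ) hτ
      have hr1 : 1 < Real.exp (-τ) := Real.one_lt_exp_iff.mpr (by linarith)
      have h2 := hexc (Real.exp (-τ)) hr1 hc
      refine h1.trans (h2.trans ?_)
      have e1 : Real.exp (-τ) ^ 2 - 1 = Real.exp (-τ) ^ 2 * yy τ := by
        rw [yy, Real.exp_neg]
        have := (Real.exp_pos τ).ne'
        field_simp
      have h5 : (Real.exp (-τ) ^ 2 - 1) ^ (1 - β) ≤ 4 ^ (1 - β) * yy τ ^ (1 - β) := by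
        rw [e1, ← Real.mul_rpow (by norm_num) hy.le]
        apply Real.rpow_le_rpow (by positivity) _ hp.le
        apply mul_le_mul_of_nonneg_right _ hy.le
        nlinarith [Real.exp_pos (-τ)]
      have h6 : 0 ≤ (Real.exp (-τ) ^ 2 - 1) ^ (1 - β) := by
        apply Real.rpow_nonneg
        nlinarith
      calc M * (Real.exp (-τ) ^ 2 - 1) ^ (1 - β)
          ≤ (|M| + 1) * (4 ^ (1 - β) * yy τ ^ (1 - β)) := by
            apply mul_le_mul _ h5 h6 (by positivity)
            linarith [le_abs_self M]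
        _ = 1 * (M' * yy τ ^ (1 - β)) := by rw [hM']; ring
        _ ≤ 2 * π * (M' * yy τ ^ (1 - β)) := by
            apply mul_le_mul_of_nonneg_right hpi (by positivity)
    · push Not at hc
      have hsub : exc H ρ τ ⊆ Ioc 0 (2 * π) := fun θ hθ => hθ.1
      have h1 : (volume (exc H ρ τ)).toReal ≤ 2 * π := by
        have h2 := ENNReal.toReal_mono measure_Ioc_lt_top.ne (measure_mono hsub (μ := volume))
        rw [Real.volume_Ioc, sub_zero, ENNReal.toReal_ofReal (by positivity)] at h2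
        exact h2
      refine h1.trans ?_
      have h3 : Real.exp τ ≤ 1 / 2 := by
        rw [Real.exp_neg] at hc
        have h9 := Real.exp_pos τ
        rw [le_div_iff₀ (by norm_num)]
        have h10 := mul_le_mul_of_nonneg_right hc h9.le
        rw [inv_mul_cancel₀ h9.ne'] at h10
        linarith
      have h5 : 1 ≤ 4 * yy τ := by
        have := Real.exp_pos τ
        unfold yy
        nlinarith
      have h6 : (1:ℝ) ≤ 4 ^ (1 - β) * yy τ ^ (1 - β) := by
        rw [← Real.mul_rpow (by norm_num) hy.le]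
        exact Real.one_le_rpow h5 hp.le
      have h7 : (1:ℝ) ≤ M' * yy τ ^ (1 - β) := by
        have h8 : M' * yy τ ^ (1 - β) = (|M| + 1) * (4 ^ (1 - β) * yy τ ^ (1 - β)) := by
          rw [hM']; ring
        rw [h8]
        have : (1:ℝ) ≤ |M| + 1 := by linarith [abs_nonneg M]
        nlinarith
      nlinarith [Real.pi_pos]
  -- apply the bound of the means
  set τ : ℝ := -Real.log R with hτd
  have hτ : τ < 0 := by
    have := Real.log_pos hR
    linarith
  have hyR : yy τ = 1 - (R⁻¹) ^ 2 := by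
    rw [yy, hτd, Real.exp_neg, Real.exp_log hR0]
  have hy := yy_pos hτ
  have hy1 := yy_lt τ
  set L : ℝ := Real.log (1 / (1 - (R⁻¹) ^ 2)) with hL
  have hLy : L = -Real.log (yy τ) := by
    rw [hL, ← hyR, one_div, Real.log_inv]
  have hL0 : 0 < L := by
    rw [hLy]
    have := Real.log_neg hy hy1
    linarith
  have hpt : ∀ θ : ℝ, ((R⁻¹ : ℝ) : ℂ) * Complex.exp ((θ : ℂ) * I) = pt τ θ := by
    intro θ
    rw [pt, Complex.exp_add, hτd]
    congr 1
    rw [← Complex.ofReal_exp, Real.exp_neg, Real.exp_log hR0]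
  have hcont : Continuous (fun θ : ℝ => H (pt τ θ)) := by
    have h1 : ContinuousOn (fun θ : ℝ => H (pt τ θ)) univ :=
      (cont_pt hd.continuousOn).comp (f := fun θ : ℝ => ((τ, θ) : ℝ × ℝ)) (by fun_prop)
        (fun θ _ => ⟨hτ, mem_univ _⟩)
    exact continuousOn_univ.mp h1
  have hbb : L / (4 * α) < L / (4 * a) := by
    apply div_lt_div_of_pos_left hL0 (by positivity) (by linarith)
  have key := gauss_bound hcont (b := L / (4 * a)) (b' := L / (4 * α)) (A := 2 * π * A0)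
    (by positivity) hbb ?_
  · have e1 : ∀ θ : ℝ, ‖H (pt τ θ)‖ ^ 2 / (4 * (L / (4 * a))) = a * ‖H (pt τ θ)‖ ^ 2 / L := by
      intro θ
      field_simp
    have e2 : L / (4 * a) / (L / (4 * a) - L / (4 * α)) = α / (α - a) := by
      have h1 : α - a ≠ 0 := by linarith
      have h2 : L / (4 * a) - L / (4 * α) = L * (α - a) / (4 * a * α) := by
        field_simp
      rw [h2]
      field_simp
    simp_rw [e1] at key
    rw [e2] at key
    simp_rw [hpt]
    exact key
  · intro v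
    have h1 := means hd hH0 hg hB hM'0 hE hα0 hαβ hαρ (conj v) hτ
    have e1 : U (fun ζ => conj v * H ζ) τ = ∫ θ in (0:ℝ)..(2 * π),
        Real.exp (H (pt τ θ) * conj v).re := by
      unfold U wt
      congr 1
      ext θ
      rw [mul_comm]
    rw [e1] at h1
    refine h1.trans (le_of_eq ?_)
    rw [Complex.norm_conj, hA0]
    congr 1
    rw [Real.rpow_def_of_pos hy]
    congr 1
    have : Real.log (yy τ) = -L := by rw [hLy, neg_neg]
    rw [this]
    ring

end Pool.Agent.Helper39.Dim
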