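import Pool.Agent.Helper39.Dim.Hardy
import Pool.Agent.Helper39.Dim.Compare
set_option autoImplicit false
open Complex MeasureTheory Metric Set Filter Topology
open scoped Real ENNReal ComplexConjugate NNReal

/-! Integral means of `exp (t H)` when `(1 - |ζ|²)|H'| ≤ ρ` off a small set. -/

namespace Pool.Agent.Helper39.Dim

/-- the exceptional set at radius `exp τ` -/
def exc (H : ℂ → ℂ) (ρ τ : ℝ) : Set ℝ :=
  {θ : ℝ | θ ∈ Ioc (0:ℝ) (2 * π) ∧ ρ < (1 - Real.exp τ ^ 2) * ‖deriv H (pt τ θ)‖}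

section J

variable (A γ : ℝ)

/-- `y = 1 - e^{2τ}` -/
noncomputable def yy (τ : ℝ) : ℝ := 1 - Real.exp τ ^ 2

theorem yy_pos {τ : ℝ} (hτ : τ < 0) : 0 < yy τ := by
  have h1 : Real.exp τ < 1 := Real.exp_lt_one_iff.mpr hτ
  have h2 := Real.exp_pos τ
  unfold yy
  nlinarith

theorem yy_lt (τ : ℝ) : yy τ < 1 := by
  have h2 := Real.exp_pos τ
  unfold yy
  nlinarith

theorem hasDerivAt_yy (τ : ℝ) : HasDerivAt yy (-(2 * Real.exp τ ^ 2)) τ := by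
  have h1 : HasDerivAt (fun τ : ℝ => 1 - Real.exp τ ^ 2)
      (0 - ((2:ℕ) * Real.exp τ ^ 1 * Real.exp τ)) τ :=
    (hasDerivAt_const τ (1:ℝ)).sub ((Real.hasDerivAt_exp τ).pow 2)
  have e : -(2 * Real.exp τ ^ 2) = (0 - ((2:ℕ) * Real.exp τ ^ 1 * Real.exp τ)) := by
    push_cast; ring
  rw [e]
  exact h1

noncomputable def JJ (τ : ℝ) : ℝ := A * yy τ ^ (-γ)
noncomputable def JJ1 (τ : ℝ) : ℝ := A * (2 * γ * Real.exp τ ^ 2 * yy τ ^ (-γ - 1))
noncomputable def JJ2 (τ : ℝ) : ℝ :=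
  A * (4 * γ * Real.exp τ ^ 2 * (1 + γ * Real.exp τ ^ 2) * yy τ ^ (-γ - 2))

theorem hasDerivAt_rpow_yy (p : ℝ) {τ : ℝ} (hτ : τ < 0) :
    HasDerivAt (fun τ => yy τ ^ p) (-(2 * Real.exp τ ^ 2) * p * yy τ ^ (p - 1)) τ :=
  (hasDerivAt_yy τ).rpow_const (Or.inl (yy_pos hτ).ne')

theorem hasDerivAt_JJ {τ : ℝ} (hτ : τ < 0) : HasDerivAt (JJ A γ) (JJ1 A γ τ) τ := by
  have h1 := (hasDerivAt_rpow_yy (-γ) hτ).const_mul A
  have e : JJ1 A γ τ = A * (-(2 * Real.exp τ ^ 2) * -γ * yy τ ^ (-γ - 1)) := by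
    unfold JJ1; ring
  rw [e]
  exact h1

theorem hasDerivAt_JJ1 {τ : ℝ} (hτ : τ < 0) : HasDerivAt (JJ1 A γ) (JJ2 A γ τ) τ := by
  have h1 : HasDerivAt (fun τ => 2 * γ * Real.exp τ ^ 2)
      (2 * γ * ((2:ℕ) * Real.exp τ ^ 1 * Real.exp τ)) τ :=
    ((Real.hasDerivAt_exp τ).pow 2).const_mul (2 * γ)
  have h2 := (h1.mul (hasDerivAt_rpow_yy (-γ - 1) hτ)).const_mul A
  have e : JJ2 A γ τ = A * (2 * γ * ((2:ℕ) * Real.exp τ ^ 1 * Real.exp τ) * yy τ ^ (-γ - 1) +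
      2 * γ * Real.exp τ ^ 2 *
        (-(2 * Real.exp τ ^ 2) * (-γ - 1) * yy τ ^ (-γ - 1 - 1))) := by
    have e1 : yy τ ^ (-γ - 1) = yy τ ^ (-γ - 2) * yy τ := by
      rw [← Real.rpow_add_one (yy_pos hτ).ne']
      congr 1
      ring
    have e2 : yy τ ^ (-γ - 1 - 1) = yy τ ^ (-γ - 2) := by
      congr 1
      ring
    have e3 : yy τ = 1 - Real.exp τ ^ 2 := rfl
    rw [e2, e1]
    unfold JJ2
    push_cast
    generalize yy τ ^ (-γ - 2) = w at *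
    rw [e3]
    ring
  rw [e]
  exact h2

theorem tendsto_exp_sq : Tendsto (fun τ : ℝ => Real.exp τ ^ 2) atBot (𝓝 0) := by
  have := (Real.tendsto_exp_atBot).pow 2
  simpa using this

theorem tendsto_yy : Tendsto yy atBot (𝓝 1) := by
  have := (tendsto_exp_sq).const_sub 1
  rw [sub_zero] at this
  exact this

theorem tendsto_yy_rpow (p : ℝ) : Tendsto (fun τ => yy τ ^ p) atBot (𝓝 1) := by
  have := tendsto_yy.rpow_const (p := p) (Or.inl one_ne_zero)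
  simpa using this

theorem tendsto_JJ : Tendsto (JJ A γ) atBot (𝓝 A) := by
  have := (tendsto_yy_rpow (-γ)).const_mul A
  rw [mul_one] at this
  exact this

theorem tendsto_JJ1 : Tendsto (JJ1 A γ) atBot (𝓝 0) := by
  have h1 := ((tendsto_exp_sq.const_mul (2 * γ)).mul (tendsto_yy_rpow (-γ - 1))).const_mul A
  rw [mul_zero, zero_mul, mul_zero] at h1
  exact h1

end J

variable {H : ℂ → ℂ}

theorem tendsto_U {F : ℂ → ℂ} (hF : DifferentiableOn ℂ F (ball 0 1)) (hF0 : F 0 = 0) :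
    Tendsto (U F) atBot (𝓝 (2 * π)) := by
  have hb0 : ball (0:ℂ) 1 ∈ 𝓝 (0:ℂ) := ball_mem_nhds 0 one_pos
  have hc : ContinuousAt F 0 := hF.continuousOn.continuousAt hb0
  rw [Metric.tendsto_nhds]
  intro ε hε
  -- choose δ with `|exp (Re F) - 1| < ε / (4π)` near 0
  have hg : ContinuousAt (fun ζ : ℂ => Real.exp (F ζ).re) 0 :=
    (Real.continuous_exp.comp Complex.continuous_re).continuousAt.comp hc
  have h1 : ∀ᶠ ζ in 𝓝 (0:ℂ), |Real.exp (F ζ).re - 1| < ε / (4 * π) := by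
    have := Metric.tendsto_nhds.mp hg.tendsto (ε / (4 * π)) (by positivity)
    simpa [hF0, Real.dist_eq] using this
  rw [Metric.eventually_nhds_iff] at h1
  obtain ⟨δ, hδ, h1⟩ := h1
  have h2 : ∀ᶠ τ : ℝ in atBot, Real.exp τ < δ := by
    have := Real.tendsto_exp_atBot.eventually (gt_mem_nhds hδ)
    exact this
  filter_upwards [h2, eventually_lt_atBot 0] with τ hτ hτ0
  have h3 : U F τ - 2 * π = ∫ θ in (0:ℝ)..(2 * π), (wt F τ θ - 1) := by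
    rw [intervalIntegral.integral_sub]
    · simp [U]
    · have h1 : ContinuousOn (fun θ : ℝ => wt F τ θ) univ :=
        (cont_wt hF.continuousOn).comp (f := fun θ : ℝ => ((τ, θ) : ℝ × ℝ)) (by fun_prop)
          (fun θ _ => ⟨hτ0, mem_univ _⟩)
      exact (continuousOn_univ.mp h1).intervalIntegrable _ _
    · exact intervalIntegrable_const
  rw [Real.dist_eq, h3]
  have h4 : ‖∫ θ in (0:ℝ)..(2 * π), (wt F τ θ - 1)‖ ≤ ε / (4 * π) * |2 * π - 0| := by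
    apply intervalIntegral.norm_integral_le_of_norm_le_const
    intro θ _
    rw [Real.norm_eq_abs]
    apply (h1 _).le
    rw [dist_zero_right, norm_pt]
    exact hτ
  rw [Real.norm_eq_abs] at h4
  have h5 : ε / (4 * π) * |2 * π - 0| = ε / 2 := by
    rw [sub_zero, abs_of_pos (by positivity)]
    field_simp
    ring
  linarith

theorem tendsto_P {F : ℂ → ℂ} (hF : DifferentiableOn ℂ F (ball 0 1)) :
    Tendsto (P F) atBot (𝓝 0) := by
  have hb0 : ball (0:ℂ) 1 ∈ 𝓝 (0:ℂ) := ball_mem_nhds 0 one_pos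
  have hc : ContinuousAt F 0 := hF.continuousOn.continuousAt hb0
  have hce : ContinuousAt (eul F) 0 := (eul_diff hF).continuousOn.continuousAt hb0
  rw [Metric.tendsto_nhds]
  intro ε hε
  have hg : ContinuousAt (fun ζ : ℂ => (eul F ζ).re * Real.exp (F ζ).re) 0 :=
    (Complex.continuous_re.continuousAt.comp hce).mul
      ((Real.continuous_exp.comp Complex.continuous_re).continuousAt.comp hc)
  have h1 : ∀ᶠ ζ in 𝓝 (0:ℂ), |(eul F ζ).re * Real.exp (F ζ).re| < ε / (4 * π) := by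
    have := Metric.tendsto_nhds.mp hg.tendsto (ε / (4 * π)) (by positivity)
    simpa [eul, Real.dist_eq] using this
  rw [Metric.eventually_nhds_iff] at h1
  obtain ⟨δ, hδ, h1⟩ := h1
  have h2 : ∀ᶠ τ : ℝ in atBot, Real.exp τ < δ := by
    have := Real.tendsto_exp_atBot.eventually (gt_mem_nhds hδ)
    exact this
  filter_upwards [h2] with τ hτ
  rw [Real.dist_eq, sub_zero]
  have h4 : ‖∫ θ in (0:ℝ)..(2 * π), (eul F (pt τ θ)).re * wt F τ θ‖ ≤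
      ε / (4 * π) * |2 * π - 0| := by
    apply intervalIntegral.norm_integral_le_of_norm_le_const
    intro θ _
    rw [Real.norm_eq_abs]
    apply (h1 _).le
    rw [dist_zero_right, norm_pt]
    exact hτ
  rw [Real.norm_eq_abs] at h4
  have h5 : ε / (4 * π) * |2 * π - 0| = ε / 2 := by
    rw [sub_zero, abs_of_pos (by positivity)]
    field_simp
    ring
  have h6 : |P F τ| ≤ ε / (4 * π) * |2 * π - 0| := h4
  linarith

/-- the main differential inequality -/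
theorem Q_le (hH : DifferentiableOn ℂ H (ball 0 1))
    {κ : ℝ} (hg : ∀ ζ ∈ ball (0:ℂ) 1, ‖H ζ‖ ≤ κ * Real.log (1 / (1 - ‖ζ‖ ^ 2))) {B : ℝ}
    (hB : ∀ ζ ∈ ball (0:ℂ) 1, (1 - ‖ζ‖ ^ 2) * ‖deriv H ζ‖ ≤ B) {ρ M β : ℝ}
    (hE : ∀ τ : ℝ, τ < 0 → (volume (exc H ρ τ)).toReal ≤ 2 * π * (M * yy τ ^ (1 - β)))
    (t : ℂ) {τ : ℝ} (hτ : τ < 0) :
    Q (fun ζ => t * H ζ) τ ≤ ‖t‖ ^ 2 * (Real.exp τ ^ 2 / yy τ ^ 2) *
      (ρ ^ 2 * U (fun ζ => t * H ζ) τ + B ^ 2 * (2 * π * (M * yy τ ^ (1 - β - κ * ‖t‖)))) := by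
  set F : ℂ → ℂ := fun ζ => t * H ζ with hF
  have hFd : DifferentiableOn ℂ F (ball 0 1) := hH.const_mul t
  have hy := yy_pos hτ
  have hslice : ∀ {f : ℝ × ℝ → ℝ}, ContinuousOn f (Iio 0 ×ˢ univ) →
      Continuous (fun θ : ℝ => f (τ, θ)) := by
    intro f hf
    have h1 : ContinuousOn (fun θ : ℝ => f (τ, θ)) univ :=
      hf.comp (f := fun θ : ℝ => ((τ, θ) : ℝ × ℝ)) (by fun_prop) (fun θ _ => ⟨hτ, mem_univ _⟩)
    exact continuousOn_univ.mp h1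
  have cw : Continuous (fun θ : ℝ => wt F τ θ) := hslice (cont_wt hFd.continuousOn)
  have cd : Continuous (fun θ : ℝ => ‖deriv H (pt τ θ)‖) :=
    hslice ((cont_pt (hH.deriv isOpen_ball).continuousOn).norm)
  have ce : Continuous (fun θ : ℝ => ‖eul F (pt τ θ)‖) :=
    hslice ((cont_pt (eul_diff hFd).continuousOn).norm)
  -- the exceptional set is measurable
  have hEm : MeasurableSet (exc H ρ τ) := by
    apply measurableSet_Ioc.inter
    exact measurableSet_lt measurable_const (cd.measurable.const_mul _)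
  have hEsub : exc H ρ τ ⊆ Ioc 0 (2 * π) := fun θ hθ => hθ.1
  have hEfin : volume (exc H ρ τ) ≠ ⊤ :=
    ((measure_mono hEsub).trans_lt measure_Ioc_lt_top).ne
  -- pointwise bounds
  have hw : ∀ θ : ℝ, wt F τ θ ≤ yy τ ^ (-(κ * ‖t‖)) := by
    intro θ
    have h1 := hg (pt τ θ) (pt_mem hτ θ)
    rw [norm_pt] at h1
    have h2 : (F (pt τ θ)).re ≤ ‖t‖ * (κ * Real.log (1 / yy τ)) := by
      calc (F (pt τ θ)).re ≤ ‖F (pt τ θ)‖ := Complex.re_le_norm _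
        _ = ‖t‖ * ‖H (pt τ θ)‖ := by simp [hF]
        _ ≤ ‖t‖ * (κ * Real.log (1 / yy τ)) := mul_le_mul_of_nonneg_left h1 (norm_nonneg _)
    calc wt F τ θ ≤ Real.exp (‖t‖ * (κ * Real.log (1 / yy τ))) := Real.exp_le_exp.mpr h2
      _ = yy τ ^ (-(κ * ‖t‖)) := by
          rw [Real.rpow_def_of_pos hy, one_div, Real.log_inv]
          congr 1
          ring
  have heul : ∀ θ : ℝ, ‖eul F (pt τ θ)‖ ^ 2 =
      ‖t‖ ^ 2 * (Real.exp τ ^ 2 * ‖deriv H (pt τ θ)‖ ^ 2) := by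
    intro θ
    have h1 : deriv F (pt τ θ) = t * deriv H (pt τ θ) :=
      (((hH.differentiableAt (isOpen_ball.mem_nhds (pt_mem hτ θ))).hasDerivAt).const_mul t).deriv
    rw [eul, h1, norm_mul, norm_mul, norm_pt]
    ring
  have hpt : ∀ θ ∈ Ioc (0:ℝ) (2 * π), ‖eul F (pt τ θ)‖ ^ 2 * wt F τ θ ≤
      ‖t‖ ^ 2 * (Real.exp τ ^ 2 / yy τ ^ 2) * (ρ ^ 2 * wt F τ θ +
        (exc H ρ τ).indicator (fun _ => B ^ 2 * yy τ ^ (-(κ * ‖t‖))) θ) := by
    intro θ hθ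
    have hw0 : 0 < wt F τ θ := Real.exp_pos _
    rw [heul]
    have hd0 := norm_nonneg (deriv H (pt τ θ))
    have hBθ := hB (pt τ θ) (pt_mem hτ θ)
    rw [norm_pt] at hBθ
    have e : ∀ X : ℝ, ‖t‖ ^ 2 * (Real.exp τ ^ 2 / yy τ ^ 2) * X =
        ‖t‖ ^ 2 * (Real.exp τ ^ 2 * (X / yy τ ^ 2)) := by
      intro X; ring
    rw [e, mul_assoc]
    apply mul_le_mul_of_nonneg_left _ (sq_nonneg _)
    rw [mul_assoc]
    apply mul_le_mul_of_nonneg_left _ (sq_nonneg _)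
    rw [le_div_iff₀ (by positivity)]
    by_cases hθE : θ ∈ exc H ρ τ
    · rw [Set.indicator_of_mem hθE]
      have h2 : ‖deriv H (pt τ θ)‖ ^ 2 * wt F τ θ * yy τ ^ 2 =
          ((yy τ * ‖deriv H (pt τ θ)‖) ^ 2) * wt F τ θ := by ring
      rw [h2]
      have h3 : (yy τ * ‖deriv H (pt τ θ)‖) ^ 2 ≤ B ^ 2 := by
        apply pow_le_pow_left₀ (by positivity)
        exact hBθ
      calc ((yy τ * ‖deriv H (pt τ θ)‖) ^ 2) * wt F τ θ ≤ B ^ 2 * yy τ ^ (-(κ * ‖t‖)) := by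
            apply mul_le_mul h3 (hw θ) hw0.le (sq_nonneg _)
        _ ≤ ρ ^ 2 * wt F τ θ + B ^ 2 * yy τ ^ (-(κ * ‖t‖)) := by
            have : 0 ≤ ρ ^ 2 * wt F τ θ := by positivity
            linarith
    · rw [Set.indicator_of_notMem hθE, add_zero]
      have h4 : yy τ * ‖deriv H (pt τ θ)‖ ≤ ρ := by
        by_contra h5
        push Not at h5
        exact hθE ⟨hθ, h5⟩
      have h2 : ‖deriv H (pt τ θ)‖ ^ 2 * wt F τ θ * yy τ ^ 2 =
          ((yy τ * ‖deriv H (pt τ θ)‖) ^ 2) * wt F τ θ := by ring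
      rw [h2]
      apply mul_le_mul_of_nonneg_right _ hw0.le
      exact pow_le_pow_left₀ (by positivity) h4 2
  have h2π : (0:ℝ) ≤ 2 * π := by positivity
  have hint1 : Integrable (fun θ => ‖eul F (pt τ θ)‖ ^ 2 * wt F τ θ)
      (volume.restrict (Ioc 0 (2 * π))) :=
    (((ce.pow 2).mul cw).intervalIntegrable 0 (2 * π)).1
  have hintw : Integrable (fun θ => wt F τ θ) (volume.restrict (Ioc 0 (2 * π))) :=
    (cw.intervalIntegrable 0 (2 * π)).1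
  have hintE : Integrable ((exc H ρ τ).indicator (fun _ : ℝ => B ^ 2 * yy τ ^ (-(κ * ‖t‖))))
      (volume.restrict (Ioc 0 (2 * π))) :=
    (integrable_const _).indicator hEm
  have hstep : Q F τ ≤ ∫ θ in Ioc 0 (2 * π), ‖t‖ ^ 2 * (Real.exp τ ^ 2 / yy τ ^ 2) *
      (ρ ^ 2 * wt F τ θ + (exc H ρ τ).indicator (fun _ => B ^ 2 * yy τ ^ (-(κ * ‖t‖))) θ) := by
    rw [Q, intervalIntegral.integral_of_le h2π]
    apply setIntegral_mono_on hint1
    · exact ((hintw.const_mul _).add hintE).const_mul _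
    · exact measurableSet_Ioc
    · exact hpt
  refine hstep.trans ?_
  rw [integral_const_mul]
  apply mul_le_mul_of_nonneg_left _ (by positivity)
  rw [integral_add (hintw.const_mul _) hintE, integral_const_mul]
  have e1 : ∫ θ in Ioc 0 (2 * π), wt F τ θ = U F τ := by
    rw [U, intervalIntegral.integral_of_le h2π]
  rw [e1]
  have e2 : ∫ θ in Ioc 0 (2 * π), (exc H ρ τ).indicator (fun _ => B ^ 2 * yy τ ^ (-(κ * ‖t‖))) θ =
      (volume (exc H ρ τ)).toReal * (B ^ 2 * yy τ ^ (-(κ * ‖t‖))) := by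
    rw [setIntegral_indicator hEm, setIntegral_const, inter_eq_self_of_subset_right hEsub,
      smul_eq_mul, Measure.real]
  rw [e2]
  have e3 : yy τ ^ (1 - β - κ * ‖t‖) = yy τ ^ (1 - β) * yy τ ^ (-(κ * ‖t‖)) := by
    rw [← Real.rpow_add hy]
    congr 1
  have h7 : (volume (exc H ρ τ)).toReal * (B ^ 2 * yy τ ^ (-(κ * ‖t‖))) ≤
      (2 * π * (M * yy τ ^ (1 - β))) * (B ^ 2 * yy τ ^ (-(κ * ‖t‖))) :=
    mul_le_mul_of_nonneg_right (hE τ hτ) (mul_nonneg (sq_nonneg _) (Real.rpow_pos_of_pos hy _).le)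
  rw [e3]
  linarith

/-- uniform bound for the integral means for every complex exponent -/
theorem means (hH : DifferentiableOn ℂ H (ball 0 1)) (hH0 : H 0 = 0)
    {κ : ℝ} (hg : ∀ ζ ∈ ball (0:ℂ) 1, ‖H ζ‖ ≤ κ * Real.log (1 / (1 - ‖ζ‖ ^ 2))) {B : ℝ}
    (hB : ∀ ζ ∈ ball (0:ℂ) 1, (1 - ‖ζ‖ ^ 2) * ‖deriv H ζ‖ ≤ B) {ρ M β α : ℝ}
    (hM : 0 ≤ M)
    (hE : ∀ τ : ℝ, τ < 0 → (volume (exc H ρ τ)).toReal ≤ 2 * π * (M * yy τ ^ (1 - β)))
    (hα : 0 < α) (hαβ : α * κ ^ 2 ≤ 1 - β) (hαρ : ρ ^ 2 < 1 / α)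
    (t : ℂ) {τ : ℝ} (hτ : τ < 0) :
    U (fun ζ => t * H ζ) τ ≤
      (2 * π * (2 + B ^ 2 * M / (1 / α - ρ ^ 2))) * yy τ ^ (-(‖t‖ ^ 2 / (4 * α))) := by
  set F : ℂ → ℂ := fun ζ => t * H ζ with hF
  have hFd : DifferentiableOn ℂ F (ball 0 1) := hH.const_mul t
  have hd : 0 < 1 / α - ρ ^ 2 := by linarith
  set A0 : ℝ := 2 + B ^ 2 * M / (1 / α - ρ ^ 2) with hA0
  have hA0pos : 2 ≤ A0 := by
    have : 0 ≤ B ^ 2 * M / (1 / α - ρ ^ 2) := by positivity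
    linarith
  set γ : ℝ := ‖t‖ ^ 2 / (4 * α) with hγ
  have hγ0 : 0 ≤ γ := by positivity
  have hA1 : ρ ^ 2 * A0 + B ^ 2 * M ≤ A0 / α := by
    have h1 : B ^ 2 * M = (B ^ 2 * M / (1 / α - ρ ^ 2)) * (1 / α - ρ ^ 2) :=
      (div_mul_cancel₀ _ hd.ne').symm
    have h2 : B ^ 2 * M ≤ A0 * (1 / α - ρ ^ 2) := by
      rw [h1, hA0]
      apply mul_le_mul_of_nonneg_right _ hd.le
      linarith
    have h3 : A0 / α = A0 * (1 / α) := by ring
    rw [h3]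
    linarith
  -- `γ ≥ κ|t| - (1 - β)`
  have hγt : κ * ‖t‖ - (1 - β) ≤ γ := by
    rw [hγ, le_div_iff₀ (by positivity)]
    nlinarith [sq_nonneg (‖t‖ - 2 * α * κ), norm_nonneg t]
  have main := compare (U := U F) (P := P F) (Q := Q F) (J := JJ (2 * π * A0) γ)
    (J1 := JJ1 (2 * π * A0) γ) (J2 := JJ2 (2 * π * A0) γ)
    (fun τ hτ => hasDerivAt_U hFd hτ) (fun τ hτ => hasDerivAt_P hFd hτ)
    (fun τ hτ => hasDerivAt_JJ _ _ hτ) (fun τ hτ => hasDerivAt_JJ1 _ _ hτ) ?_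
    (c := 2 * π * A0 - 2 * π) ?_ ?_ ?_ τ hτ
  · exact main
  · intro τ hτ hUJ
    have hy := yy_pos hτ
    have hy1 := yy_lt τ
    refine (Q_le hH hg hB hE t hτ).trans ?_
    have h1 : yy τ ^ (1 - β - κ * ‖t‖) ≤ yy τ ^ (-γ) :=
      Real.rpow_le_rpow_of_exponent_ge hy hy1.le (by linarith)
    have h2 : ρ ^ 2 * U F τ + B ^ 2 * (2 * π * (M * yy τ ^ (1 - β - κ * ‖t‖))) ≤
        2 * π * (A0 / α) * yy τ ^ (-γ) := by
      have h3 : U F τ ≤ 2 * π * A0 * yy τ ^ (-γ) := hUJ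
      have h4 : ρ ^ 2 * U F τ ≤ ρ ^ 2 * (2 * π * A0 * yy τ ^ (-γ)) :=
        mul_le_mul_of_nonneg_left h3 (sq_nonneg _)
      have h5 : B ^ 2 * (2 * π * (M * yy τ ^ (1 - β - κ * ‖t‖))) ≤
          B ^ 2 * (2 * π * (M * yy τ ^ (-γ))) := by
        gcongr
      have h6 : 0 ≤ 2 * π * yy τ ^ (-γ) := by positivity
      have h7 := mul_le_mul_of_nonneg_left hA1 h6
      calc ρ ^ 2 * U F τ + B ^ 2 * (2 * π * (M * yy τ ^ (1 - β - κ * ‖t‖)))
          ≤ ρ ^ 2 * (2 * π * A0 * yy τ ^ (-γ)) + B ^ 2 * (2 * π * (M * yy τ ^ (-γ))) :=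
            add_le_add h4 h5
        _ = 2 * π * yy τ ^ (-γ) * (ρ ^ 2 * A0 + B ^ 2 * M) := by ring
        _ ≤ 2 * π * yy τ ^ (-γ) * (A0 / α) := h7
        _ = 2 * π * (A0 / α) * yy τ ^ (-γ) := by ring
    calc ‖t‖ ^ 2 * (Real.exp τ ^ 2 / yy τ ^ 2) *
          (ρ ^ 2 * U F τ + B ^ 2 * (2 * π * (M * yy τ ^ (1 - β - κ * ‖t‖))))
        ≤ ‖t‖ ^ 2 * (Real.exp τ ^ 2 / yy τ ^ 2) * (2 * π * (A0 / α) * yy τ ^ (-γ)) := by
          apply mul_le_mul_of_nonneg_left h2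
          positivity
      _ = 2 * π * A0 * (4 * γ * Real.exp τ ^ 2 * 1 * (yy τ ^ (-γ) / yy τ ^ 2)) := by
          rw [hγ]
          field_simp
      _ ≤ 2 * π * A0 * (4 * γ * Real.exp τ ^ 2 * (1 + γ * Real.exp τ ^ 2) *
            (yy τ ^ (-γ) / yy τ ^ 2)) := by
          gcongr
          have : 0 ≤ γ * Real.exp τ ^ 2 := by positivity
          linarith
      _ = JJ2 (2 * π * A0) γ τ := by
          have e1 : yy τ ^ (-γ - 2) = yy τ ^ (-γ) / yy τ ^ 2 := by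
            rw [Real.rpow_sub hy]
            norm_num
          rw [JJ2, e1]
  · have : 0 < π := Real.pi_pos
    nlinarith
  · exact (tendsto_JJ _ _).sub (tendsto_U hFd (by simp [hF, hH0]))
  · have := (tendsto_JJ1 (2 * π * A0) γ).sub (tendsto_P hFd)
    simpa using this

end Pool.Agent.Helper39.Dim
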